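import Pool.Agent.H639R3.Z.Gal
import Pool.Agent.H639R3.Tower

set_option autoImplicit false

/-!
Extension of valuation rings, degrees of points in extensions.
-/

namespace Pool.Agent.H639R3

/-- every valuation ring extends to every extension field -/
theorem exists_extension {F L : Type} [Field F] [Field L] [Algebra F L] (O : ValuationSubring F) :
    ∃ w : ValuationSubring L, w.comap (algebraMap F L) = O := by
  obtain ⟨w, hw⟩ := (O.toLocalSubring.map (algebraMap F L)).exists_le_valuationSubring
  refine ⟨w, ?_⟩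
  rw [LocalSubring.le_def] at hw
  obtain ⟨hle, hloc⟩ := hw
  have h1 : ∀ z : F, z ∈ O → algebraMap F L z ∈ w := by
    intro z hz
    exact hle ⟨z, hz, rfl⟩
  ext z
  rw [ValuationSubring.mem_comap]
  refine ⟨fun hz => ?_, h1 z⟩
  by_contra hzO
  have hz0 : z ≠ 0 := by
    rintro rfl
    exact hzO O.zero_mem
  have hinv : z⁻¹ ∈ O := (O.mem_or_inv_mem z).resolve_left hzO
  -- the element z⁻¹ becomes a unit in w
  have hmem : algebraMap F L z⁻¹ ∈ (O.toLocalSubring.map (algebraMap F L)).toSubring :=
    ⟨z⁻¹, hinv, rfl⟩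
  have hunit : IsUnit (Subring.inclusion hle ⟨algebraMap F L z⁻¹, hmem⟩) := by
    refine IsUnit.of_mul_eq_one ⟨algebraMap F L z, hz⟩ ?_
    apply Subtype.ext
    change algebraMap F L z⁻¹ * algebraMap F L z = 1
    rw [← map_mul, inv_mul_cancel₀ hz0, map_one]
  have hunit2 : IsUnit (⟨algebraMap F L z⁻¹, hmem⟩ :
      (O.toLocalSubring.map (algebraMap F L)).toSubring) := hloc.map_nonunit _ hunit
  obtain ⟨c, hc⟩ := hunit2.exists_right_inv
  obtain ⟨c', hc', hcc'⟩ := c.2
  have h2 : algebraMap F L z⁻¹ * (c : L) = 1 := congrArg Subtype.val hc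
  have h3 : algebraMap F L c' = (c : L) := hcc'
  rw [← h3, ← map_mul] at h2
  have h4 : z⁻¹ * c' = 1 := (algebraMap F L).injective (by rw [h2, map_one])
  have h5 : c' = z := by
    field_simp at h4
    exact h4
  rw [← h5] at hzO
  exact hzO hc'

section deg

variable {k F M : Type} [Field k] [Field F] [Field M] [Algebra k F] [Algebra k M]

/-- the map of local rings -/
noncomputable def ringMap (x : ClosedPoint k F) (y : ClosedPoint k M) (f : F →+* M)
    (h : ∀ a, a ∈ x.ring ↔ f a ∈ y.ring) : x.ring →+* y.ring :=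
  (f.comp x.ring.subtype).codRestrict y.ring.toSubring fun a => (h a).mp a.2

theorem ringMap_local (x : ClosedPoint k F) (y : ClosedPoint k M) (f : F →+* M)
    (h : ∀ a, a ∈ x.ring ↔ f a ∈ y.ring) : IsLocalHom (ringMap x y f h) := by
  constructor
  intro a ha
  have ha0 : (a : F) ≠ 0 := by
    intro h0
    have h1 : ringMap x y f h a = 0 := by
      apply Subtype.ext
      change f (a : F) = 0
      rw [h0, map_zero]
    rw [h1] at ha
    exact not_isUnit_zero ha
  obtain ⟨c, hc⟩ := ha.exists_right_inv
  have h2 : f (a : F) * (c : M) = 1 := congrArg Subtype.val hc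
  have h3 : (c : M) = f ((a : F)⁻¹) := by
    rw [map_inv₀]
    exact eq_inv_of_mul_eq_one_right h2
  have h4 : (a : F)⁻¹ ∈ x.ring := by
    rw [h, ← h3]
    exact c.2
  refine IsUnit.of_mul_eq_one ⟨(a : F)⁻¹, h4⟩ ?_
  apply Subtype.ext
  change (a : F) * (a : F)⁻¹ = 1
  exact mul_inv_cancel₀ ha0

/-- the map of residue fields -/
noncomputable def resMap (x : ClosedPoint k F) (y : ClosedPoint k M) (f : F →+* M)
    (h : ∀ a, a ∈ x.ring ↔ f a ∈ y.ring) :
    IsLocalRing.ResidueField x.ring →+* IsLocalRing.ResidueField y.ring :=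
  @IsLocalRing.ResidueField.map _ _ _ _ _ _ (ringMap x y f h) (ringMap_local x y f h)

theorem resMap_residue (x : ClosedPoint k F) (y : ClosedPoint k M) (f : F →+* M)
    (h : ∀ a, a ∈ x.ring ↔ f a ∈ y.ring) (a : x.ring) :
    resMap x y f h (IsLocalRing.residue x.ring a) = IsLocalRing.residue y.ring (ringMap x y f h a) :=
  rfl

theorem resMap_const (x : ClosedPoint k F) (y : ClosedPoint k M) (f : F →+* M)
    (hk : ∀ a : k, f (algebraMap k F a) = algebraMap k M a)
    (h : ∀ a, a ∈ x.ring ↔ f a ∈ y.ring) (a : k) :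
    resMap x y f h (x.constHom a) = y.constHom a := by
  unfold ClosedPoint.constHom
  rw [RingHom.comp_apply, resMap_residue, RingHom.comp_apply]
  congr 1
  apply Subtype.ext
  exact hk a

/-- the residue map as a linear map -/
noncomputable def resLin (x : ClosedPoint k F) (y : ClosedPoint k M) (f : F →+* M)
    (hk : ∀ a : k, f (algebraMap k F a) = algebraMap k M a)
    (h : ∀ a, a ∈ x.ring ↔ f a ∈ y.ring) :
    @LinearMap k k _ _ (RingHom.id k) (IsLocalRing.ResidueField x.ring)
      (IsLocalRing.ResidueField y.ring) _ _ x.constHom.toAlgebra.toModule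
      y.constHom.toAlgebra.toModule :=
  let _ : Algebra k (IsLocalRing.ResidueField x.ring) := x.constHom.toAlgebra
  let _ : Algebra k (IsLocalRing.ResidueField y.ring) := y.constHom.toAlgebra
  { toFun := resMap x y f h
    map_add' := map_add _
    map_smul' := by
      intro a r
      rw [Algebra.smul_def, map_mul, RingHom.id_apply, Algebra.smul_def]
      congr 1
      exact resMap_const x y f hk h a }

/-- an isomorphism of the local rings over `k` preserves the degree -/
theorem deg_eq_of_equiv (x : ClosedPoint k F) (y : ClosedPoint k M) (f : F →+* M)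
    (hk : ∀ a : k, f (algebraMap k F a) = algebraMap k M a)
    (h : ∀ a, a ∈ x.ring ↔ f a ∈ y.ring) (hs : Function.Surjective f) : x.deg = y.deg := by
  let _ : Algebra k (IsLocalRing.ResidueField x.ring) := x.constHom.toAlgebra
  let _ : Algebra k (IsLocalRing.ResidueField y.ring) := y.constHom.toAlgebra
  refine LinearEquiv.finrank_eq (LinearEquiv.ofBijective (resLin x y f hk h) ⟨?_, ?_⟩)
  · exact (resMap x y f h).injective
  · intro r
    obtain ⟨b, rfl⟩ := IsLocalRing.residue_surjective r
    obtain ⟨a, ha⟩ := hs b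
    refine ⟨IsLocalRing.residue x.ring ⟨a, (h a).mpr (by rw [ha]; exact b.2)⟩, ?_⟩
    have h3 : resMap x y f h (IsLocalRing.residue x.ring ⟨a, (h a).mpr (by rw [ha]; exact b.2)⟩) =
        IsLocalRing.residue y.ring b := by
      rw [resMap_residue]
      congr 1
      apply Subtype.ext
      exact ha
    exact h3

/-- the degree does not decrease in an extension -/
theorem deg_le_of_hom [Finite k] (hM : IsCurve k M) (x : ClosedPoint k F) (y : ClosedPoint k M)
    (f : F →+* M) (hk : ∀ a : k, f (algebraMap k F a) = algebraMap k M a)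
    (h : ∀ a, a ∈ x.ring ↔ f a ∈ y.ring) : x.deg ≤ y.deg := by
  let _ : Algebra k (IsLocalRing.ResidueField x.ring) := x.constHom.toAlgebra
  let _ : Algebra k (IsLocalRing.ResidueField y.ring) := y.constHom.toAlgebra
  have hfin : Module.Finite k (IsLocalRing.ResidueField y.ring) := y.finite_residue hM
  exact LinearMap.finrank_le_finrank_of_injective (f := resLin x y f hk h)
    (resMap x y f h).injective

end deg

/-- finite extensions of function fields are function fields -/
theorem isCurve_of_finite {k K M : Type} [Field k] [Field K] [Field M] [Algebra k K] [Algebra K M]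
    [Algebra k M] [IsScalarTower k K M] [FiniteDimensional K M] (hK : IsCurve k K)
    (hc : ∀ y : M, IsAlgebraic k y → ∃ a : k, algebraMap k M a = y) : IsCurve k M := by
  obtain ⟨⟨s, hs⟩, htr, -⟩ := hK
  refine ⟨?_, ?_, hc⟩
  · have hft : Algebra.EssFiniteType k K := IntermediateField.fg_top_iff.mp ⟨s, hs⟩
    have h2 : Algebra.EssFiniteType k M := Algebra.EssFiniteType.comp k K M
    obtain ⟨t, ht⟩ := IntermediateField.fg_top_iff.mpr h2
    exact ⟨t, ht⟩
  · have h1 := _root_.trdeg_add_eq (R := k) (S := K) (A := M)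
    rw [htr, _root_.trdeg_eq_zero (R := K) (A := M), add_zero] at h1
    exact h1.symm

end Pool.Agent.H639R3
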