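import Pool.Agent.H639R3.Z.Pow

set_option autoImplicit false

/-!
The analytic argument: the reciprocal roots cannot stay in a finite set.
-/

namespace Pool.Agent.H639R3

open Filter Polynomial

theorem eval_prod_eq_zero (S : Finset ℂ) (a : ℂ) (ha : a ∈ S) :
    (∏ b ∈ S, (X - C b : ℂ[X])).eval a = 0 := by
  rw [eval_prod]
  exact Finset.prod_eq_zero ha (by simp)

theorem eval_prod_ne_zero (S : Finset ℂ) (a : ℂ) (ha : a ∉ S) :
    (∏ b ∈ S, (X - C b : ℂ[X])).eval a ≠ 0 := by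
  rw [eval_prod, Finset.prod_ne_zero_iff]
  intro b hb h
  rw [eval_sub, eval_X, eval_C, sub_eq_zero] at h
  exact ha (h ▸ hb)

theorem op_power_sum (S : Finset ℂ) (A : Multiset ℂ) (hA : ∀ α ∈ A, α ∈ S) (h1 : (1 : ℂ) ∈ S)
    (q : ℕ) (s : ℕ → ℂ) (hs : ∀ m, 0 < m → s m = (q : ℂ) ^ m + 1 - (A.map fun α => α ^ m).sum)
    (k : ℕ) (hk : 0 < k) :
    op (∏ b ∈ S, (X - C b)) s k = (q : ℂ) ^ k * (∏ b ∈ S, (X - C b : ℂ[X])).eval (q : ℂ) := by
  set T : ℂ[X] := ∏ b ∈ S, (X - C b) with hT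
  rw [op_congr T s (fun m => ((q : ℂ) ^ m + 1 ^ m) - (A.map fun α => α ^ m).sum)
    (fun m hm => by rw [hs m hm, one_pow]) k hk]
  rw [op_sub T (fun m => (q : ℂ) ^ m + 1 ^ m), op_add T (fun m => (q : ℂ) ^ m), op_pow, op_pow,
    op_multiset]
  have h2 : T.eval 1 = 0 := eval_prod_eq_zero S 1 h1
  have h3 : (A.map fun α => α ^ k * T.eval α).sum = 0 := by
    apply Multiset.sum_eq_zero
    intro b hb
    rw [Multiset.mem_map] at hb
    obtain ⟨α, hα, rfl⟩ := hb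
    rw [eval_prod_eq_zero S α (hA α hα), mul_zero]
  rw [h2, h3]
  ring

theorem analytic (q p : ℕ) (hq : 2 ≤ q) (hp : 2 ≤ p) (N : ℕ → ℕ → ℕ) (M : ℕ → ℕ) (R : ℕ)
    (hN : ∀ m, 0 < m → ∃ n0, ∀ n, n0 ≤ n → p ^ n * M m ≤ N n m ∧ N n m ≤ p ^ n * M m + R)
    (A : ℕ → Multiset ℂ) (I : Set ℕ) (hI : I.Infinite)
    (hA : ∀ n ∈ I, ∀ m, 0 < m → (N n m : ℂ) = (q : ℂ) ^ m + 1 - ((A n).map fun α => α ^ m).sum)
    (S : Finset ℂ) (hS : ∀ n ∈ I, ∀ α ∈ A n, α ∈ S) (hqA : ∀ n ∈ I, (q : ℂ) ∉ A n) : False := by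
  classical
  -- the sets of roots
  set S' : Finset ℂ := insert 1 (S.erase (q : ℂ)) with hS'
  have hqS' : (q : ℂ) ∉ S' := by
    rw [hS', Finset.mem_insert, not_or]
    refine ⟨?_, Finset.notMem_erase _ _⟩
    intro h
    have : q = 1 := by exact_mod_cast h
    omega
  have hAS' : ∀ n ∈ I, ∀ α ∈ A n, α ∈ S' := by
    intro n hn α hα
    rw [hS', Finset.mem_insert, Finset.mem_erase]
    refine Or.inr ⟨?_, hS n hn α hα⟩
    rintro rfl
    exact hqA n hn hα
  set T : ℂ[X] := ∏ b ∈ insert (q : ℂ) S', (X - C b) with hT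
  have hTm : T.Monic := monic_prod_of_monic _ _ fun b _ => monic_X_sub_C b
  set D := T.natDegree with hD
  have hrec : ∀ n ∈ I, ∀ k, 0 < k → op T (fun m => (N n m : ℂ)) k = 0 := by
    intro n hn k hk
    rw [hT, op_power_sum (insert (q : ℂ) S') (A n)
      (fun α hα => Finset.mem_insert_of_mem (hAS' n hn α hα))
      (Finset.mem_insert_of_mem (Finset.mem_insert_self _ _)) q _ (hA n hn) k hk,
      eval_prod_eq_zero _ _ (Finset.mem_insert_self _ _), mul_zero]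
  -- a common threshold
  have hN' : ∀ m, ∃ n0, 0 < m → ∀ n, n0 ≤ n → p ^ n * M m ≤ N n m ∧ N n m ≤ p ^ n * M m + R := by
    intro m
    by_cases hm : 0 < m
    · obtain ⟨n0, hn0⟩ := hN m hm
      exact ⟨n0, fun _ => hn0⟩
    · exact ⟨0, fun h => absurd h hm⟩
  choose n0 hn0 using hN'
  set n1 := ∑ m ∈ Finset.range (D + 1), n0 m with hn1
  have hn1' : ∀ m, m ≤ D → n0 m ≤ n1 := fun m hm =>
    Finset.single_le_sum (f := n0) (fun _ _ => Nat.zero_le _) (Finset.mem_range.mpr (by omega))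
  -- an infinite subset on which the remainders are constant
  have hI1 : (I ∩ {n | n1 ≤ n}).Infinite := by
    have h1 : (I \ {n | n < n1}).Infinite := hI.sdiff (Set.finite_lt_nat n1)
    refine h1.mono ?_
    rintro n ⟨h2, h3⟩
    refine ⟨h2, ?_⟩
    simpa using h3
  set J := I ∩ {n | n1 ≤ n} with hJ
  have : Infinite J := hI1.to_subtype
  let v : J → (Fin D → Fin (R + 1)) := fun n i =>
    ⟨N n.1 (i.1 + 1) - p ^ n.1 * M (i.1 + 1), by
      have h1 := hn0 (i.1 + 1) (by omega) n.1 ((hn1' (i.1 + 1) (by omega)).trans n.2.2)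
      omega⟩
  obtain ⟨r, hr⟩ := Finite.exists_infinite_fiber v
  have hval : ∀ n : J, v n = r → ∀ m, (hm0 : 0 < m) → (hm : m ≤ D) →
      N n.1 m = p ^ n.1 * M m + (r ⟨m - 1, by omega⟩).1 := by
    intro n hn m hm0 hm
    have h1 := hn0 m hm0 n.1 ((hn1' m hm).trans n.2.2)
    have h2 := congrArg (fun f => (f ⟨m - 1, by omega⟩).1) hn
    simp only [v] at h2
    have h3 : m - 1 + 1 = m := by omega
    rw [h3] at h2
    omega
  -- choose two indices
  have hinf : (Subtype.val '' (v ⁻¹' {r})).Infinite := by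
    have h1 : (v ⁻¹' {r}).Infinite := Set.infinite_coe_iff.mp hr
    exact h1.image Subtype.val_injective.injOn
  set J' := Subtype.val '' (v ⁻¹' {r}) with hJ'
  have hJ'I : ∀ n ∈ J', n ∈ I := by
    rintro _ ⟨n, -, rfl⟩
    exact n.2.1
  have hJ'v : ∀ n ∈ J', ∀ m, (hm0 : 0 < m) → (hm : m ≤ D) →
      N n m = p ^ n * M m + (r ⟨m - 1, by omega⟩).1 := by
    rintro _ ⟨n, hn, rfl⟩
    exact hval n hn
  obtain ⟨a, ha⟩ := hinf.nonempty
  obtain ⟨b, hb, hab⟩ := hinf.exists_gt a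
  -- the linear relation
  have hrel : ∀ c ∈ J', ∀ k, 0 < k → ((p : ℂ) ^ c - p ^ a) * ((N b k : ℂ) - N a k) =
      ((p : ℂ) ^ b - p ^ a) * ((N c k : ℂ) - N a k) := by
    intro c hc
    have h1 := op_eq_zero T hTm
      (fun k => ((p : ℂ) ^ c - p ^ a) * ((N b k : ℂ) - N a k) -
        ((p : ℂ) ^ b - p ^ a) * ((N c k : ℂ) - N a k)) (by
        intro k hk
        rw [op_sub T (fun k => ((p : ℂ) ^ c - p ^ a) * ((N b k : ℂ) - N a k)),
          op_mul T _ (fun k => (N b k : ℂ) - N a k), op_mul T _ (fun k => (N c k : ℂ) - N a k),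
          op_sub T (fun k => (N b k : ℂ)), op_sub T (fun k => (N c k : ℂ)),
          hrec a (hJ'I a ha) k hk, hrec b (hJ'I b hb) k hk, hrec c (hJ'I c hc) k hk]
        ring) (by
        intro k hk hkD
        rw [hJ'v a ha k hk hkD, hJ'v b hb k hk hkD, hJ'v c hc k hk hkD]
        push_cast
        ring)
    intro k hk
    exact sub_eq_zero.mp (h1 k hk)
  have hpab : (p : ℤ) ^ a < p ^ b := pow_lt_pow_right₀ (by omega) hab
  -- the bounded combination
  have hbd : ∀ k, 0 < k → ∃ s : ℕ, s ≤ R ∧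
      (p : ℤ) ^ b * N a k - p ^ a * N b k = ((p : ℤ) ^ b - p ^ a) * s := by
    intro k hk
    set C0 : ℕ := (((p : ℤ) ^ a) * |(N b k : ℤ) - N a k| + (p ^ b - p ^ a) * (R + N a k)).toNat
      with hC0
    obtain ⟨c, hc, hcgt⟩ := hinf.exists_gt (max C0 (n0 k))
    have hc1 : C0 < c := lt_of_le_of_lt (le_max_left _ _) hcgt
    have hc2 : n0 k ≤ c := ((le_max_right _ _).trans_lt hcgt).le
    obtain ⟨h1, h2⟩ := hn0 k hk c hc2
    obtain ⟨s, hs⟩ := Nat.exists_eq_add_of_le h1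
    have hsR : s ≤ R := by omega
    have h3 := hrel c hc k hk
    have h4 : ((p : ℤ) ^ c - p ^ a) * ((N b k : ℤ) - N a k) =
      ((p : ℤ) ^ b - p ^ a) * ((N c k : ℤ) - N a k) := by exact_mod_cast h3
    rw [hs] at h4
    push_cast at h4
    have h5 : (p : ℤ) ^ c * ((N b k : ℤ) - N a k - (p ^ b - p ^ a) * M k) =
        p ^ a * ((N b k : ℤ) - N a k) + (p ^ b - p ^ a) * (s - N a k) := by linear_combination h4
    have hpc : (C0 : ℤ) < p ^ c := by
      have h6 : c < p ^ c := Nat.lt_pow_self (by omega)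
      have : C0 < p ^ c := by omega
      exact_mod_cast this
    have h6 : |(p : ℤ) ^ a * ((N b k : ℤ) - N a k) + (p ^ b - p ^ a) * (s - N a k)| ≤ C0 := by
      have h7 : |(s : ℤ) - N a k| ≤ R + N a k := by
        rw [abs_le]
        constructor <;> omega
      have h8 : |(p : ℤ) ^ a * ((N b k : ℤ) - N a k) + (p ^ b - p ^ a) * (s - N a k)| ≤
          (p : ℤ) ^ a * |(N b k : ℤ) - N a k| + (p ^ b - p ^ a) * (R + N a k) := by
        refine (abs_add_le _ _).trans ?_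
        rw [abs_mul, abs_mul, abs_of_nonneg (by positivity : (0 : ℤ) ≤ p ^ a),
          abs_of_nonneg (by omega : (0 : ℤ) ≤ p ^ b - p ^ a)]
        have := mul_le_mul_of_nonneg_left h7 (by omega : (0 : ℤ) ≤ (p : ℤ) ^ b - p ^ a)
        linarith
      refine h8.trans ?_
      rw [hC0]
      exact Int.self_le_toNat _
    have h7 : (N b k : ℤ) - N a k - (p ^ b - p ^ a) * M k = 0 := by
      by_contra hne
      have h8 : 1 ≤ |(N b k : ℤ) - N a k - (p ^ b - p ^ a) * M k| := Int.one_le_abs hne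
      have h9 := congrArg abs h5
      rw [abs_mul, abs_of_nonneg (by positivity : (0 : ℤ) ≤ p ^ c)] at h9
      have h10 : (p : ℤ) ^ c * 1 ≤ p ^ c * |(N b k : ℤ) - N a k - (p ^ b - p ^ a) * M k| :=
        mul_le_mul_of_nonneg_left h8 (by positivity)
      omega
    rw [h7, mul_zero] at h5
    exact ⟨s, hsR, by linear_combination h5⟩
  -- the final contradiction
  set T' : ℂ[X] := ∏ b ∈ S', (X - C b) with hT'
  have hT'q : T'.eval (q : ℂ) ≠ 0 := eval_prod_ne_zero S' _ hqS'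
  set G : ℕ → ℂ := fun k => (p : ℂ) ^ b * N a k - p ^ a * N b k with hG
  have hGop : ∀ k, 0 < k → op T' G k = ((p : ℂ) ^ b - p ^ a) * ((q : ℂ) ^ k * T'.eval (q : ℂ)) := by
    intro k hk
    rw [hG, op_sub T' (fun k => (p : ℂ) ^ b * N a k), op_mul T' _ (fun k => (N a k : ℂ)),
      op_mul T' _ (fun k => (N b k : ℂ)),
      op_power_sum S' (A a) (hAS' a (hJ'I a ha)) (Finset.mem_insert_self _ _) q _
        (hA a (hJ'I a ha)) k hk,
      op_power_sum S' (A b) (hAS' b (hJ'I b hb)) (Finset.mem_insert_self _ _) q _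
        (hA b (hJ'I b hb)) k hk]
    ring
  set C1 : ℝ := ((p : ℝ) ^ b - p ^ a) * R with hC1
  have hpabR : (0 : ℝ) < (p : ℝ) ^ b - p ^ a := by
    have : (p : ℝ) ^ a < p ^ b := by exact_mod_cast hpab
    linarith
  have hGb : ∀ k, 0 < k → ‖G k‖ ≤ C1 := by
    intro k hk
    obtain ⟨s, hs, he⟩ := hbd k hk
    have h1 : G k = ((((p : ℝ) ^ b - p ^ a) * s : ℝ) : ℂ) := by
      rw [hG]
      simp only
      have h2 : (((p : ℤ) ^ b * N a k - p ^ a * N b k : ℤ) : ℂ) =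
        ((((p : ℤ) ^ b - p ^ a) * s : ℤ) : ℂ) := by rw [he]
      push_cast at h2 ⊢
      exact h2
    rw [h1, Complex.norm_real, Real.norm_of_nonneg (by positivity), hC1]
    apply mul_le_mul_of_nonneg_left _ hpabR.le
    exact_mod_cast hs
  set C2 : ℝ := (∑ j ∈ Finset.range (T'.natDegree + 1), ‖T'.coeff j‖) * C1 with hC2
  have hfin : ∀ k, 0 < k → ((p : ℝ) ^ b - p ^ a) * ((q : ℝ) ^ k * ‖T'.eval (q : ℂ)‖) ≤ C2 := by
    intro k hk
    have h1 := op_norm_le T' G C1 hGb k hk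
    rw [hGop k hk, norm_mul, norm_mul, norm_pow, Complex.norm_natCast] at h1
    have h2 : ‖((p : ℂ) ^ b - p ^ a)‖ = (p : ℝ) ^ b - p ^ a := by
      have : ((p : ℂ) ^ b - p ^ a) = (((p : ℝ) ^ b - p ^ a : ℝ) : ℂ) := by push_cast; ring
      rw [this, Complex.norm_real, Real.norm_of_nonneg hpabR.le]
    rw [h2] at h1
    exact h1
  have hnpos : 0 < ‖T'.eval (q : ℂ)‖ := norm_pos_iff.mpr hT'q
  have hlim := tendsto_pow_atTop_atTop_of_one_lt (show (1 : ℝ) < q by exact_mod_cast hq)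
  obtain ⟨k, hk1, hk2⟩ := ((hlim.eventually_gt_atTop
    (C2 / (((p : ℝ) ^ b - p ^ a) * ‖T'.eval (q : ℂ)‖))).and (eventually_gt_atTop 0)).exists
  have h3 := hfin k hk2
  rw [div_lt_iff₀ (by positivity)] at hk1
  linarith

end Pool.Agent.H639R3
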