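import Pool.Agent.H639R3.Euler

set_option autoImplicit false

/-!
Logarithmic derivatives of power series and Euler products.
-/

namespace Pool.Agent.H639R3

open PowerSeries

/-- `a` is the logarithmic derivative `s f' / f` -/
def IsLog {R : Type*} [Field R] (f a : PowerSeries R) : Prop := X * derivative R f = a * f

section

variable {R : Type*} [Field R]

theorem IsLog.mul {f g a b : PowerSeries R} (hf : IsLog f a) (hg : IsLog g b) :
    IsLog (f * g) (a + b) := by
  unfold IsLog at *
  rw [Derivation.leibniz, smul_eq_mul, smul_eq_mul]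
  linear_combination f * hg + g * hf

theorem IsLog.one : IsLog (1 : PowerSeries R) 0 := by
  unfold IsLog
  rw [Derivation.map_one_eq_zero]
  ring

theorem IsLog.unique {f a b : PowerSeries R} (hf : f ≠ 0) (ha : IsLog f a) (hb : IsLog f b) :
    a = b := by
  unfold IsLog at *
  have h : (a - b) * f = 0 := by linear_combination hb - ha
  rcases mul_eq_zero.mp h with h1 | h1
  · exact sub_eq_zero.mp h1
  · exact absurd h1 hf

theorem IsLog.inv {f g a : PowerSeries R} (hf : IsLog f a) (hfg : f * g = 1) : IsLog g (-a) := by
  have h1 := congrArg (derivative R) hfg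
  rw [Derivation.leibniz, Derivation.map_one_eq_zero, smul_eq_mul, smul_eq_mul] at h1
  unfold IsLog at *
  -- X * g' = g * f * X * g' = - g * X * f' * g
  linear_combination (X * g) * h1 + (-(g * g)) * hf + (-(X * derivative R g) - a * g) * hfg

theorem IsLog.prod {ι : Type*} (s : Finset ι) (f a : ι → PowerSeries R)
    (h : ∀ x ∈ s, IsLog (f x) (a x)) : IsLog (∏ x ∈ s, f x) (∑ x ∈ s, a x) := by
  classical
  induction s using Finset.induction_on with
  | empty => simpa using IsLog.one
  | insert x s hx ih =>
    rw [Finset.prod_insert hx, Finset.sum_insert hx]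
    exact (h x (Finset.mem_insert_self _ _)).mul
      (ih fun y hy => h y (Finset.mem_insert_of_mem hy))

theorem isLog_linear (α : R) :
    IsLog (1 - C α * X) (mk fun m => if m = 0 then 0 else -α ^ m) := by
  unfold IsLog
  ext m
  have h1 : derivative R (1 - C α * X) = -C α := by
    rw [map_sub, Derivation.map_one_eq_zero, Derivation.leibniz, derivative_C, derivative_X]
    simp
  rw [h1, mul_sub, mul_one, map_sub, coeff_mk]
  have h2 : (mk fun m => if m = 0 then 0 else -α ^ m : PowerSeries R) * (C α * X) =
    C α * ((mk fun m => if m = 0 then 0 else -α ^ m) * X) := by ring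
  rw [h2, coeff_C_mul]
  have h3 : (X * -C α : PowerSeries R) = C (-α) * X := by rw [map_neg]; ring
  rw [h3, coeff_C_mul, coeff_X]
  rcases m with _ | m
  · simp
  · rw [coeff_succ_mul_X, coeff_mk]
    rcases m with _ | m
    · simp
    · simp [pow_succ]
      ring

theorem isLog_multiset (A : Multiset R) : IsLog (A.map fun α => 1 - C α * X).prod
    (mk fun m => if m = 0 then 0 else -(A.map fun α => α ^ m).sum) := by
  induction A using Multiset.induction_on with
  | empty =>
    have h : (mk fun m => if m = 0 then 0 else
        -((0 : Multiset R).map fun α => α ^ m).sum : PowerSeries R) = 0 := by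
      ext m
      simp
    rw [h]
    simpa using IsLog.one
  | cons a A ih =>
    rw [Multiset.map_cons, Multiset.prod_cons]
    have h := (isLog_linear a).mul ih
    convert h using 1
    ext m
    rw [map_add, coeff_mk, coeff_mk, coeff_mk]
    split_ifs
    · simp
    · rw [Multiset.map_cons, Multiset.sum_cons]
      ring

theorem isLog_geom (d : ℕ) (hd : 0 < d) :
    IsLog (mk fun j => if d ∣ j then (1 : R) else 0)
      (mk fun j => if j = 0 then 0 else if d ∣ j then (d : R) else 0) := by
  -- first the polynomial
  have h1 : IsLog (1 - X ^ d : PowerSeries R)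
      (-(mk fun j => if j = 0 then 0 else if d ∣ j then (d : R) else 0)) := by
    unfold IsLog
    have h2 : derivative R (1 - X ^ d : PowerSeries R) = -(C (d : R) * X ^ (d - 1)) := by
      rw [map_sub, Derivation.map_one_eq_zero, Derivation.leibniz_pow, derivative_X, zero_sub]
      simp
    rw [h2]
    have h3 : (X * -(C (d : R) * X ^ (d - 1)) : PowerSeries R) = -(C (d : R) * X ^ d) := by
      obtain ⟨e, rfl⟩ : ∃ e, d = e + 1 := ⟨d - 1, by omega⟩
      rw [Nat.add_sub_cancel]
      ring
    rw [h3]
    ext j
    rw [neg_mul, map_neg, map_neg, neg_inj, mul_sub, mul_one, map_sub, coeff_C_mul, coeff_X_pow,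
      coeff_mul_X_pow', coeff_mk]
    rcases Nat.eq_zero_or_pos j with hj | hj
    · subst hj
      simp [hd.ne]
    · rw [if_neg hj.ne']
      by_cases hjd : j = d
      · subst hjd
        simp
      · rw [if_neg hjd, mul_zero]
        by_cases hle : d ≤ j
        · rw [if_pos hle, coeff_mk, if_neg (by omega : ¬ j - d = 0)]
          have : d ∣ j - d ↔ d ∣ j := by
            constructor
            · intro h
              have h4 := Nat.dvd_add h (dvd_refl d)
              rwa [Nat.sub_add_cancel hle] at h4
            · intro h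
              exact Nat.dvd_sub h (dvd_refl d)
          simp only [this]
          ring
        · rw [if_neg hle, if_neg]
          · ring
          · intro h
            exact hle (Nat.le_of_dvd hj h)
  have h2 := h1.inv (g := mk fun j => if d ∣ j then (1 : R) else 0) (by
    have h3 := inv_eq (1 : R) d hd
    simp only [map_one, one_mul, one_pow] at h3
    rw [← h3]
    apply PowerSeries.mul_inv_cancel
    simp [hd.ne'])
  rwa [neg_neg] at h2

/-- coefficients of truncated products -/
theorem coeff_trunc {ι : Type*} [DecidableEq ι] (d : ι → ℕ) (hd : ∀ x, 0 < d x)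
    (s : Finset ι) (t : Finset ι) (j : ℕ) (hst : s ⊆ t) (h : ∀ x ∈ t, x ∉ s → j < d x)
    (f : ι → PowerSeries R) (hf : ∀ x ∈ t, ∀ i, i < d x → coeff i (f x) = if i = 0 then 1 else 0) :
    coeff j (∏ x ∈ t, f x) = coeff j (∏ x ∈ s, f x) := by
  rw [← Finset.prod_sdiff hst, coeff_mul]
  have h1 : ∀ u : Finset ι, u ⊆ t \ s → ∀ i, i ≤ j →
      coeff i (∏ x ∈ u, f x) = if i = 0 then 1 else 0 := by
    intro u
    induction u using Finset.induction_on with
    | empty => intro _ i _; rw [Finset.prod_empty, coeff_one]
    | insert x u hx ih =>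
      intro hu i hi
      have hxm : x ∈ t \ s := hu (Finset.mem_insert_self _ _)
      rw [Finset.mem_sdiff] at hxm
      have hjd := h x hxm.1 hxm.2
      rw [Finset.prod_insert hx, coeff_mul]
      have hih := ih (fun y hy => hu (Finset.mem_insert_of_mem hy))
      rw [Finset.sum_eq_single (0, i)]
      · simp only
        rw [hf x hxm.1 0 (hd x), hih i hi, if_pos rfl, one_mul]
      · rintro ⟨b, c⟩ hbc hne
        rw [Finset.HasAntidiagonal.mem_antidiagonal] at hbc
        simp only at hbc ⊢
        have hb : b ≠ 0 := by
          rintro rfl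
          apply hne
          rw [zero_add] at hbc
          rw [hbc]
        rw [hf x hxm.1 b (by omega), if_neg hb, zero_mul]
      · intro h2
        exact absurd (Finset.HasAntidiagonal.mem_antidiagonal.mpr (zero_add i)) h2
  rw [Finset.sum_eq_single (0, j)]
  · simp only
    rw [h1 _ (Finset.Subset.refl _) 0 (Nat.zero_le _), if_pos rfl, one_mul]
  · rintro ⟨b, c⟩ hbc hne
    rw [Finset.HasAntidiagonal.mem_antidiagonal] at hbc
    simp only at hbc ⊢
    have hb : b ≠ 0 := by
      rintro rfl
      apply hne
      rw [zero_add] at hbc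
      rw [hbc]
    rw [h1 _ (Finset.Subset.refl _) b (by omega), if_neg hb, zero_mul]
  · intro h2
    exact absurd (Finset.HasAntidiagonal.mem_antidiagonal.mpr (zero_add j)) h2

/-- the logarithmic derivative of the Euler product -/
theorem isLog_euler {ι : Type*} (d : ι → ℕ) (hd : ∀ x, 0 < d x)
    (hfin : ∀ m, {x | d x ≤ m}.Finite) :
    IsLog (eulerProduct d fun _ => (1 : R))
      (mk fun m => if m = 0 then 0 else
        ((∑ x ∈ (hfin m).toFinset, if d x ∣ m then d x else 0 : ℕ) : R)) := by
  classical
  unfold IsLog
  set G : ι → PowerSeries R := fun x => mk fun j => if d x ∣ j then (1 : R) else 0 with hG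
  have hcoeff : ∀ m, coeff m (eulerProduct d fun _ => (1 : R)) =
      coeff m (∏ x ∈ (hfin m).toFinset, G x) := by
    intro m
    rw [coeff_eulerProduct d hd hfin]
    simp only [one_pow]
    rfl
  have hG1 : ∀ x i, i < d x → coeff i (G x) = if i = 0 then 1 else 0 := by
    intro x i hi
    rw [hG, coeff_mk]
    by_cases h0 : i = 0
    · subst h0; simp
    · rw [if_neg h0, if_neg]
      intro h
      exact absurd (Nat.le_of_dvd (Nat.pos_of_ne_zero h0) h) (by omega)
  have htr : ∀ m j, j ≤ m → coeff j (∏ x ∈ (hfin m).toFinset, G x) =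
      coeff j (∏ x ∈ (hfin j).toFinset, G x) := by
    intro m j hj
    apply coeff_trunc d hd
    · intro x hx
      rw [Set.Finite.mem_toFinset, Set.mem_ofPred_eq] at hx ⊢
      omega
    · intro x _ hx
      rw [Set.Finite.mem_toFinset, Set.mem_ofPred_eq] at hx
      omega
    · intro x _
      exact hG1 x
  ext m
  have hlog := IsLog.prod (hfin m).toFinset G
    (fun x => mk fun j => if j = 0 then 0 else if d x ∣ j then (d x : R) else 0)
    (fun x _ => isLog_geom (d x) (hd x))
  unfold IsLog at hlog
  have h1 := congrArg (coeff m) hlog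
  have hX : ∀ f : PowerSeries R, coeff m (X * derivative R f) = m * coeff m f := by
    intro f
    rcases m with _ | m
    · simp
    · rw [coeff_succ_X_mul, coeff_derivative]
      push_cast
      ring
  rw [hX] at h1 ⊢
  rw [hcoeff, h1, coeff_mul, coeff_mul]
  apply Finset.sum_congr rfl
  rintro ⟨b, c⟩ hbc
  rw [Finset.HasAntidiagonal.mem_antidiagonal] at hbc
  simp only at hbc ⊢
  rw [hcoeff c, htr m c (by omega), map_sum, coeff_mk]
  congr 1
  by_cases hb : b = 0
  · rw [if_pos hb]
    apply Finset.sum_eq_zero
    intro x _
    rw [coeff_mk, if_pos hb]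
  · rw [if_neg hb]
    push_cast
    have hsub : (hfin b).toFinset ⊆ (hfin m).toFinset := by
      intro x hx
      rw [Set.Finite.mem_toFinset, Set.mem_ofPred_eq] at hx ⊢
      omega
    rw [← Finset.sum_subset hsub]
    · apply Finset.sum_congr rfl
      intro x _
      rw [coeff_mk, if_neg hb]
    · intro x _ hx
      rw [Set.Finite.mem_toFinset, Set.mem_ofPred_eq] at hx
      rw [coeff_mk, if_neg hb, if_neg]
      intro h
      exact hx (Nat.le_of_dvd (Nat.pos_of_ne_zero hb) h)

end

end Pool.Agent.H639R3
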