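import Pool.Agent.H639R3.Z.Geo
import Pool.Agent.H639R3.Z.Ana
import Pool.Agent.H639R3.Z.Dlog

set_option autoImplicit false

/-!
The splitting fields of the zeta numerators in a `ℤ_p`-tower have unbounded degrees.
-/

namespace Pool.Agent.H639R3

open Polynomial

theorem finite_algInt (q B : ℕ) : {α : ℂ | IsIntegral ℤ α ∧ (minpoly ℤ α).natDegree ≤ B ∧
    ∀ β ∈ ((minpoly ℤ α).map (algebraMap ℤ ℂ)).roots, ‖β‖ ≤ q}.Finite := by
  classical
  set C0 : ℝ := max (q : ℝ) 1 ^ B * B.choose (B / 2) with hC0
  have h := Polynomial.bUnion_roots_finite (algebraMap ℤ ℂ) B (Set.finite_Icc (-⌈C0⌉) ⌈C0⌉)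
  refine h.subset ?_
  rintro α ⟨h1, h2, h3⟩
  rw [Set.mem_iUnion]
  refine ⟨minpoly ℤ α, ?_⟩
  rw [Set.mem_iUnion]
  refine ⟨⟨h2, fun i => ?_⟩, ?_⟩
  · have h4 := coeff_bdd_of_roots_le (algebraMap ℤ ℂ) (minpoly.monic h1) (IsAlgClosed.splits _)
      h2 h3 i
    rw [coeff_map] at h4
    have h5 : ‖algebraMap ℤ ℂ ((minpoly ℤ α).coeff i)‖ = |(((minpoly ℤ α).coeff i : ℤ) : ℝ)| := by
      rw [eq_intCast, Complex.norm_intCast]
    rw [h5, ← hC0] at h4
    have h6 := h4.trans (Int.le_ceil C0)
    have h7 : |(minpoly ℤ α).coeff i| ≤ ⌈C0⌉ := by exact_mod_cast h6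
    exact Set.mem_Icc.mpr (abs_le.mp h7)
  · rw [Finset.mem_coe, Multiset.mem_toFinset, mem_roots', IsRoot.def, eval_map_algebraMap]
    exact ⟨(Polynomial.map_monic_ne_zero (minpoly.monic h1)), minpoly.aeval ℤ α⟩

/-- coefficients of `∏ (X - α)` and of `∏ (1 - α s)` -/
theorem coeff_prod_rev (A : Multiset ℂ) : ∀ j, j ≤ Multiset.card A →
    ((A.map fun α => (X - C α : ℂ[X])).prod).coeff (Multiset.card A - j) =
      PowerSeries.coeff j (A.map fun α => 1 - PowerSeries.C α * PowerSeries.X).prod := by
  induction A using Multiset.induction_on with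
  | empty =>
    intro j hj
    rw [Multiset.card_zero] at hj
    have : j = 0 := by omega
    subst this
    simp
  | cons a A ih =>
    intro j hj
    rw [Multiset.card_cons] at hj ⊢
    rw [Multiset.map_cons, Multiset.prod_cons, Multiset.map_cons, Multiset.prod_cons]
    set G := (A.map fun α => (X - C α : ℂ[X])).prod with hG
    set P := (A.map fun α => 1 - PowerSeries.C α * PowerSeries.X).prod with hP
    have hPc : PowerSeries.coeff j ((1 - PowerSeries.C a * PowerSeries.X) * P) =
        PowerSeries.coeff j P - a * (if j = 0 then 0 else PowerSeries.coeff (j - 1) P) := by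
      rw [sub_mul, one_mul, map_sub]
      have h1 : PowerSeries.C a * PowerSeries.X * P = PowerSeries.C a * (P * PowerSeries.X) := by
        ring
      rw [h1, PowerSeries.coeff_C_mul]
      rcases j with _ | j
      · simp
      · rw [PowerSeries.coeff_succ_mul_X]
        simp
    rw [hPc, sub_mul, coeff_sub, coeff_C_mul]
    have hGdeg : G.natDegree = Multiset.card A := by
      rw [hG]
      exact natDegree_multiset_prod_X_sub_C_eq_card A
    rcases Nat.lt_or_ge (Multiset.card A) j with hlt | hle
    · -- j = card A + 1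
      have hj' : j = Multiset.card A + 1 := by omega
      subst hj'
      rw [Nat.sub_self, coeff_X_mul_zero, if_neg (by omega), Nat.add_sub_cancel,
        coeff_linear_prod A _ (Nat.lt_succ_self _)]
      have h2 := ih (Multiset.card A) le_rfl
      rw [Nat.sub_self] at h2
      rw [h2]
    · obtain ⟨i, hi⟩ : ∃ i, Multiset.card A = i + j := ⟨Multiset.card A - j, by omega⟩
      have h3 : Multiset.card A + 1 - j = i + 1 := by omega
      have h4 : Multiset.card A - j = i := by omega
      rw [h3, coeff_X_mul, ← h4, ih j hle]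
      congr 2
      by_cases hj0 : j = 0
      · rw [if_pos hj0]
        apply coeff_eq_zero_of_natDegree_lt
        omega
      · rw [if_neg hj0, ← ih (j - 1) (by omega)]
        congr 1
        omega

/-- if `∏ (1 - α s)` has integral coefficients then every `α` is an algebraic integer whose
conjugates are among the `α` -/
theorem integral_of_coeff (A : Multiset ℂ)
    (h : ∀ m, ∃ c : ℤ, PowerSeries.coeff m
      (A.map fun α => (1 - PowerSeries.C α * PowerSeries.X : PowerSeries ℂ)).prod = (c : ℂ))
    (α : ℂ) (hα : α ∈ A) :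
    IsIntegral ℤ α ∧ ∀ β ∈ ((minpoly ℤ α).map (algebraMap ℤ ℂ)).roots, β ∈ A := by
  classical
  set G := (A.map fun α => (X - C α : ℂ[X])).prod with hG
  have hGm : G.Monic := monic_multiset_prod_of_monic _ _ fun a _ => monic_X_sub_C a
  have hGdeg : G.natDegree = Multiset.card A := by
    rw [hG]
    exact natDegree_multiset_prod_X_sub_C_eq_card A
  have hlift : G ∈ Polynomial.lifts (algebraMap ℤ ℂ) := by
    rw [Polynomial.lifts_iff_coeff_lifts]
    intro i
    by_cases hi : i ≤ Multiset.card A
    · obtain ⟨c, hc⟩ := h (Multiset.card A - i)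
      have h1 := coeff_prod_rev A (Multiset.card A - i) (Nat.sub_le _ _)
      have h2 : Multiset.card A - (Multiset.card A - i) = i := by omega
      rw [h2, hc] at h1
      refine ⟨c, ?_⟩
      rw [← hG] at h1
      rw [h1]
      simp
    · rw [coeff_eq_zero_of_natDegree_lt (by omega)]
      exact ⟨0, map_zero _⟩
  obtain ⟨Q, hQ1, -, hQ3⟩ := Polynomial.lifts_and_natDegree_eq_and_monic hlift hGm
  have hroot : G.eval α = 0 := by
    rw [hG, eval_multiset_prod, Multiset.map_map]
    apply Multiset.prod_eq_zero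
    rw [Multiset.mem_map]
    exact ⟨α, hα, by simp⟩
  have hQα : aeval α Q = 0 := by
    rw [← eval_map_algebraMap, hQ1, hroot]
  have hint : IsIntegral ℤ α := ⟨Q, hQ3, by rw [← aeval_def]; exact hQα⟩
  refine ⟨hint, fun β hβ => ?_⟩
  have hdvd := minpoly.isIntegrallyClosed_dvd hint hQα
  have hdvd2 : (minpoly ℤ α).map (algebraMap ℤ ℂ) ∣ G := by
    rw [← hQ1]
    exact Polynomial.map_dvd _ hdvd
  rw [mem_roots', IsRoot.def] at hβ
  have hβ0 : G.eval β = 0 := eval_eq_zero_of_dvd_of_eval_eq_zero hdvd2 hβ.2
  rw [hG, eval_multiset_prod, Multiset.map_map, Multiset.prod_eq_zero_iff, Multiset.mem_map] at hβ0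
  obtain ⟨γ, hγ, hγ2⟩ := hβ0
  simp only [Function.comp_apply, eval_sub, eval_X, eval_C, sub_eq_zero] at hγ2
  rw [hγ2]
  exact hγ

theorem rank_top_infinite : Cardinal.aleph0 ≤ Module.rank ℚ (⊤ : IntermediateField ℚ ℂ) := by
  by_contra hcon
  rw [not_le, Module.rank_lt_aleph0_iff] at hcon
  have h1 : Module.Finite ℚ ℂ :=
    Module.Finite.of_surjective (IntermediateField.topEquiv (F := ℚ) (E := ℂ)).toLinearMap
      (IntermediateField.topEquiv (F := ℚ) (E := ℂ)).surjective
  have h2 : Countable ℂ := by
    have e := (Module.finBasis ℚ ℂ).equivFun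
    exact Countable.of_equiv _ e.symm.toEquiv
  exact not_countable_complex Set.countable_univ

/-- The zeta function `Z(X, s) = ∏ (1 - s ^ deg x)⁻¹`, the product over all closed points `x` of the
curve `X` over `k` with function field `F`, as a formal power series in `s`. -/
noncomputable def zetaSeries (k F : Type) [Field k] [Field F] [Algebra k F] : PowerSeries ℂ :=
  eulerProduct (fun x : ClosedPoint k F => x.deg) fun _ => 1

/-- The numerator `P(X, s) = (1 - s) (1 - q s) Z(X, s)` of the zeta function of the curve `X` over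
the field `k` with `q` elements with function field `F`, as a formal power series in `s`. -/
noncomputable def zetaNumerator (k F : Type) [Field k] [Field F] [Algebra k F] : PowerSeries ℂ :=
  (1 - PowerSeries.X) * (1 - PowerSeries.C (Nat.card k : ℂ) * PowerSeries.X) * zetaSeries k F

section

variable {k F : Type} [Field k] [Finite k] [Field F] [Algebra k F]

theorem numPts_sum (hF : IsCurve k F) (m : ℕ) (hm : 0 < m) : numPts k F m =
    ∑ x ∈ (finite_points hF m).toFinset, if x.deg ∣ m then x.deg else 0 := by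
  classical
  have hfin : {y : ClosedPoint k F | y.deg ∣ m}.Finite :=
    (finite_points hF m).subset fun y hy => Nat.le_of_dvd hm hy
  unfold numPts
  rw [finsum_mem_eq_finite_toFinset_sum _ hfin, ← Finset.sum_filter]
  apply Finset.sum_congr
  · ext y
    simp only [Finset.mem_filter, Set.Finite.mem_toFinset, Set.mem_ofPred_eq]
    exact ⟨fun h => ⟨Nat.le_of_dvd hm h, h⟩, fun h => h.2⟩
  · intro y _
    rfl

theorem two_le_numPts (hF : IsCurve k F) :
    ∃ m, 0 < m ∧ ∀ j, 0 < j → m ∣ j → 2 ≤ numPts k F j := by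
  classical
  have := infinite_points hF
  obtain ⟨y1, y2, hne⟩ := exists_pair_ne (ClosedPoint k F)
  have h1 := y1.deg_pos hF
  have h2 := y2.deg_pos hF
  refine ⟨y1.deg * y2.deg, Nat.mul_pos h1 h2, fun j hj hdvd => ?_⟩
  have hd1 : y1.deg ∣ j := (dvd_mul_right _ _).trans hdvd
  have hd2 : y2.deg ∣ j := (dvd_mul_left _ _).trans hdvd
  rw [numPts_sum hF j hj]
  calc 2 ≤ y1.deg + y2.deg := by omega
    _ = ∑ x ∈ ({y1, y2} : Finset (ClosedPoint k F)), if x.deg ∣ j then x.deg else 0 := by
        rw [Finset.sum_pair hne, if_pos hd1, if_pos hd2]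
    _ ≤ _ := by
        apply Finset.sum_le_sum_of_subset
        intro x hx
        rw [Finset.mem_insert, Finset.mem_singleton] at hx
        rw [Set.Finite.mem_toFinset, Set.mem_ofPred_eq]
        rcases hx with rfl | rfl
        · exact Nat.le_of_dvd hj hd1
        · exact Nat.le_of_dvd hj hd2

theorem zeta_integral (hF : IsCurve k F) (m : ℕ) :
    ∃ c : ℤ, PowerSeries.coeff m (zetaNumerator k F) = (c : ℂ) := by
  classical
  have hd : ∀ x : ClosedPoint k F, 0 < x.deg := fun x => x.deg_pos hF
  have hz : zetaSeries k F = PowerSeries.map (Int.castRingHom ℂ) (PowerSeries.mk fun m =>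
      PowerSeries.coeff m (∏ x ∈ (finite_points hF m).toFinset,
        (PowerSeries.mk fun j => if x.deg ∣ j then (1 : ℤ) else 0))) := by
    ext j
    unfold zetaSeries
    rw [coeff_eulerProduct _ hd (finite_points hF), PowerSeries.coeff_map, PowerSeries.coeff_mk,
      ← PowerSeries.coeff_map]
    congr 1
    rw [map_prod]
    apply Finset.prod_congr rfl
    intro x _
    ext i
    rw [PowerSeries.coeff_mk, PowerSeries.coeff_map, PowerSeries.coeff_mk, one_pow]
    split_ifs <;> simp
  have hn : zetaNumerator k F = PowerSeries.map (Int.castRingHom ℂ)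
      ((1 - PowerSeries.X) * (1 - PowerSeries.C (Nat.card k : ℤ) * PowerSeries.X) *
        (PowerSeries.mk fun m =>
      PowerSeries.coeff m (∏ x ∈ (finite_points hF m).toFinset,
        (PowerSeries.mk fun j => if x.deg ∣ j then (1 : ℤ) else 0)))) := by
    rw [map_mul, map_mul, ← hz]
    unfold zetaNumerator
    simp
  rw [hn, PowerSeries.coeff_map]
  exact ⟨_, rfl⟩

theorem numPts_eq_powerSum (hF : IsCurve k F) (A : Multiset ℂ)
    (h : zetaNumerator k F = (A.map fun α => 1 - PowerSeries.C α * PowerSeries.X).prod) (m : ℕ)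
    (hm : 0 < m) :
    (numPts k F m : ℂ) = ((Nat.card k : ℕ) : ℂ) ^ m + 1 - (A.map fun α => α ^ m).sum := by
  have hd : ∀ x : ClosedPoint k F, 0 < x.deg := fun x => x.deg_pos hF
  have h1 := isLog_linear (1 : ℂ)
  rw [map_one, one_mul] at h1
  have h2 := (h1.mul (isLog_linear (Nat.card k : ℂ))).mul
    (isLog_euler (R := ℂ) (fun x : ClosedPoint k F => x.deg) hd (finite_points hF))
  have h3 := isLog_multiset A
  rw [← h] at h3
  have hne : zetaNumerator k F ≠ 0 := by
    intro h0
    have h4 : PowerSeries.constantCoeff (zetaNumerator k F) = 1 := by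
      rw [h, map_multiset_prod, Multiset.map_map]
      apply Multiset.prod_eq_one
      intro b hb
      rw [Multiset.mem_map] at hb
      obtain ⟨α, -, rfl⟩ := hb
      simp
    rw [h0, map_zero] at h4
    exact zero_ne_one h4
  have h5 := IsLog.unique hne h2 h3
  have h6 := congrArg (PowerSeries.coeff m) h5
  rw [map_add, map_add, PowerSeries.coeff_mk, PowerSeries.coeff_mk, PowerSeries.coeff_mk,
    PowerSeries.coeff_mk, if_neg hm.ne', if_neg hm.ne', if_neg hm.ne', if_neg hm.ne',
    ← numPts_sum hF m hm, one_pow] at h6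
  linear_combination h6

end

/-- The degrees of the splitting fields of the numerators of the zeta functions tend to infinity. -/
theorem zeta_tower (p : ℕ) [hp : Fact p.Prime] (k K L : Type) [Field k] [Finite k]
    [Field K] [Field L] [Algebra k K] [Algebra K L] [Algebra k L] [IsScalarTower k K L]
    (T : ZpTower p k K L) (B : ℕ) : ∃ N : ℕ, ∀ n, N ≤ n →
      (B : Cardinal) ≤ Module.rank ℚ (splittingField ℚ (zetaNumerator k (T.layer n))) := by
  classical
  by_contra hcon
  push Not at hcon
  set I : Set ℕ := {n | Module.rank ℚ (splittingField ℚ (zetaNumerator k (T.layer n))) < B} with hI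
  have hIinf : I.Infinite := by
    rw [Set.infinite_iff_exists_gt]
    intro a
    obtain ⟨n, hn, hlt⟩ := hcon (a + 1)
    exact ⟨n, hlt, by omega⟩
  have hA : ∀ n, ∃ A : Multiset ℂ, n ∈ I → zetaNumerator k (T.layer n) =
      (A.map fun α => 1 - PowerSeries.C α * PowerSeries.X).prod := by
    intro n
    by_cases hn : n ∈ I
    · by_contra hno
      push Not at hno
      have hempty : {F : IntermediateField ℚ ℂ | ∃ A : Multiset ℂ, (∀ α ∈ A, α ∈ F) ∧
          zetaNumerator k (T.layer n) =
            (A.map fun α => 1 - PowerSeries.C α * PowerSeries.X).prod} = ∅ := by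
        rw [Set.eq_empty_iff_forall_notMem]
        rintro F ⟨A, -, hF⟩
        exact (hno A).2 hF
      have htop : splittingField ℚ (zetaNumerator k (T.layer n)) = ⊤ := by
        unfold splittingField
        rw [hempty, sInf_empty]
      have h1 : Module.rank ℚ (splittingField ℚ (zetaNumerator k (T.layer n))) < B := hn
      rw [htop] at h1
      exact absurd (h1.trans (Cardinal.natCast_lt_aleph0)) (not_lt.mpr rank_top_infinite)
    · exact ⟨0, fun h => absurd h hn⟩
  choose A hA using hA
  have hpow : ∀ n ∈ I, ∀ m, 0 < m → (numPts k (T.layer n) m : ℂ) =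
      ((Nat.card k : ℕ) : ℂ) ^ m + 1 - ((A n).map fun α => α ^ m).sum := fun n hn m hm =>
    numPts_eq_powerSum (T.isCurve_layer n) (A n) (hA n hn) m hm
  have hq : 2 ≤ Nat.card k := Finite.one_lt_card
  have hnorm : ∀ n ∈ I, ∀ α ∈ A n, ‖α‖ ≤ (Nat.card k : ℕ) := fun n hn =>
    norm_le_q (Nat.card k) (by omega) (A n) (numPts k (T.layer n)) (hpow n hn)
  obtain ⟨M, R, hMR⟩ := T.numPts_asymp
  refine analytic (Nat.card k) p hq hp.out.two_le (fun n => numPts k (T.layer n)) M R hMR A I
    hIinf hpow (finite_algInt (Nat.card k) B).toFinset ?_ ?_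
  · intro n hn α hα
    rw [Set.Finite.mem_toFinset]
    have hcoeff : ∀ m, ∃ c : ℤ, PowerSeries.coeff m (((A n).map fun α =>
        (1 - PowerSeries.C α * PowerSeries.X : PowerSeries ℂ)).prod) = (c : ℂ) := by
      intro m
      rw [← hA n hn]
      exact zeta_integral (T.isCurve_layer n) m
    obtain ⟨hint, hroots⟩ := integral_of_coeff (A n) hcoeff α hα
    refine ⟨hint, ?_, fun β hβ => hnorm n hn β (hroots β hβ)⟩
    have hlt : Module.rank ℚ (splittingField ℚ (zetaNumerator k (T.layer n))) < B := hn
    set E := splittingField ℚ (zetaNumerator k (T.layer n)) with hE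
    have hfd : FiniteDimensional ℚ E :=
      Module.rank_lt_aleph0_iff.mp (hlt.trans (Cardinal.natCast_lt_aleph0))
    have hαE : α ∈ E := by
      rw [hE, hA n hn, splittingField_eq_adjoin]
      exact IntermediateField.subset_adjoin _ _ hα
    have h1 : minpoly ℚ α = (minpoly ℤ α).map (algebraMap ℤ ℚ) :=
      minpoly.isIntegrallyClosed_eq_field_fractions' ℚ hint
    have h2 : (minpoly ℤ α).natDegree = (minpoly ℚ α).natDegree := by
      rw [h1, (minpoly.monic hint).natDegree_map]
    have h3 : minpoly ℚ (⟨α, hαE⟩ : E) = minpoly ℚ α := by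
      rw [← minpoly.algebraMap_eq (algebraMap E ℂ).injective]
      rfl
    have h4 := minpoly.natDegree_le (A := ℚ) (⟨α, hαE⟩ : E)
    have h5 : Module.finrank ℚ E < B := Module.finrank_lt_of_rank_lt hlt
    rw [h2, ← h3]
    omega
  · intro n hn
    obtain ⟨m, hm, hm2⟩ := two_le_numPts (T.isCurve_layer n)
    exact q_not_mem (Nat.card k) (A n) (numPts k (T.layer n)) (hpow n hn) m hm hm2

end Pool.Agent.H639R3
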