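import Pool.Agent.H639R3.Curve

set_option autoImplicit false

/-!
Conjugacy of the valuation rings over a given one in a (possibly infinite) Galois extension.
-/

namespace Pool.Agent.H639R3

open IsDedekindDomain

theorem val_lt_one_iff {F : Type} [Field F] (O : ValuationSubring F) (x : F) :
    O.valuation x < 1 ↔ x = 0 ∨ x⁻¹ ∉ O := by
  rw [← ValuationSubring.mem_nonunits_iff, ValuationSubring.mem_nonunits_iff_or]

theorem comap_val_lt_one {F M : Type} [Field F] [Field M] (O : ValuationSubring M) (f : F →+* M)
    (x : F) : (O.comap f).valuation x < 1 ↔ O.valuation (f x) < 1 := by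
  rw [val_lt_one_iff, val_lt_one_iff, ValuationSubring.mem_comap, map_inv₀, map_eq_zero]

theorem integral_mem {A M : Type} [CommRing A] [Field M] [Algebra A M] (O : ValuationSubring M)
    (h : ∀ a : A, algebraMap A M a ∈ O) (z : M) (hz : IsIntegral A z) : z ∈ O := by
  obtain ⟨f, hf, hfa⟩ := hz
  have hint2 : IsIntegral O z := by
    let ψ : A →+* O := (algebraMap A M).codRestrict O.toSubring fun r => h r
    refine ⟨f.map ψ, hf.map ψ, ?_⟩
    rw [Polynomial.eval₂_map]
    exact hfa
  obtain ⟨y, hy⟩ := IsIntegrallyClosed.isIntegral_iff.mp hint2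
  rw [← hy]
  exact y.2

/-- In a finite separable extension of the fraction field of a Dedekind domain, valuation rings over
the domain are determined by their centers on the integral closure. -/
theorem eq_of_integral_nonunits {A F M : Type} [CommRing A] [IsDedekindDomain A] [Field F]
    [Algebra A F] [IsFractionRing A F] [Field M] [Algebra F M] [Algebra A M] [IsScalarTower A F M]
    [FiniteDimensional F M] [Algebra.IsSeparable F M] (O O' : ValuationSubring M)
    (h : ∀ a : A, algebraMap A M a ∈ O) (h' : ∀ a : A, algebraMap A M a ∈ O')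
    (hO : O ≠ ⊤) (hO' : O' ≠ ⊤)
    (hc : ∀ z : M, IsIntegral A z → (O.valuation z < 1 ↔ O'.valuation z < 1)) : O = O' := by
  have hD : IsDedekindDomain (integralClosure A M) := integralClosure.isDedekindDomain A F (L := M)
  have hFr : IsFractionRing (integralClosure A M) M :=
    integralClosure.isFractionRing_of_finite_extension F M
  have h1 : ∀ a : integralClosure A M, algebraMap (integralClosure A M) M a ∈ O := fun a =>
    integral_mem O h a a.2
  have h1' : ∀ a : integralClosure A M, algebraMap (integralClosure A M) M a ∈ O' := fun a =>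
    integral_mem O' h' a a.2
  apply eq_of_cent_eq O O' h1 h1' hO hO'
  ext a
  rw [mem_cent, mem_cent]
  exact hc a a.2

open scoped Pointwise in
/-- Conjugacy of valuation rings in a Galois extension. -/
theorem exists_aut {F L A : Type} [Field F] [Field L] [Algebra F L] [IsGalois F L]
    [CommRing A] [IsDedekindDomain A] [Algebra A F] [IsFractionRing A F]
    (w w' : ValuationSubring L) (hA : ∀ a : A, algebraMap F L (algebraMap A F a) ∈ w)
    (hne : w.comap (algebraMap F L) ≠ ⊤)
    (h : w.comap (algebraMap F L) = w'.comap (algebraMap F L)) :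
    ∃ σ : L ≃ₐ[F] L, ∀ a, a ∈ w' ↔ σ a ∈ w := by
  let _ : Algebra A L := ((algebraMap F L).comp (algebraMap A F)).toAlgebra
  have htow : IsScalarTower A F L := .of_algebraMap_eq fun _ => rfl
  have halgA : Algebra.IsAlgebraic A L :=
    (IsFractionRing.comap_isAlgebraic_iff (A := A) (K := F) (C := L)).mpr inferInstance
  have hinjAL : Function.Injective (algebraMap A L) := by
    rw [IsScalarTower.algebraMap_eq A F L]
    exact (algebraMap F L).injective.comp (IsFractionRing.injective A F)
  have htf : IsDomain (integralClosure A L) := inferInstance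
  have hFr : IsFractionRing (integralClosure A L) L :=
    integralClosure.isFractionRing_of_algebraic (fun x hx => hinjAL (by rw [hx, map_zero]))
  let _ : MulSemiringAction (L ≃ₐ[F] L) (integralClosure A L) :=
    IsIntegralClosure.MulSemiringAction A F L (integralClosure A L)
  have hsmul : ∀ (σ : L ≃ₐ[F] L) (c : integralClosure A L), ((σ • c : integralClosure A L) : L) =
      σ c := fun σ c => algebraMap_galRestrict_apply A σ c
  let _ : TopologicalSpace (integralClosure A L) := ⊥
  have hdisc : DiscreteTopology (integralClosure A L) := ⟨rfl⟩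
  have hcont : ContinuousSMul (L ≃ₐ[F] L) (integralClosure A L) := by
    refine (continuousSMul_iff_stabilizer_isOpen (M := L ≃ₐ[F] L)
      (X := integralClosure A L)).mpr fun c => ?_
    have h1 := stabilizer_isOpen_of_isIntegral (K := F) (L := L) (c : L)
    convert h1 using 1
    ext σ
    simp only [SetLike.mem_coe, MulAction.mem_stabilizer_iff]
    constructor
    · intro h2
      have h3 := congrArg (fun z : integralClosure A L => (z : L)) h2
      simp only [hsmul] at h3
      exact h3
    · intro h2
      apply Subtype.ext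
      rw [hsmul]
      exact h2
  have hcomm : SMulCommClass (L ≃ₐ[F] L) A (integralClosure A L) := by
    constructor
    intro σ a c
    apply Subtype.ext
    rw [hsmul]
    change σ (a • (c : L)) = a • ((σ • c : integralClosure A L) : L)
    rw [hsmul, Algebra.smul_def, Algebra.smul_def, map_mul]
    congr 1
    rw [IsScalarTower.algebraMap_apply A F L, AlgEquiv.commutes]
  have hinv : Algebra.IsInvariant A (integralClosure A L) (L ≃ₐ[F] L) := by
    refine ⟨fun b hb => ?_⟩
    have hb2 : ∀ σ : L ≃ₐ[F] L, σ (b : L) = b := fun σ => by rw [← hsmul, hb σ]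
    obtain ⟨y, hy⟩ := (InfiniteGalois.mem_range_algebraMap_iff_fixed (k := F) (K := L) (b : L)).mpr hb2
    have hy2 : IsIntegral A y := by
      have := b.2
      rw [mem_integralClosure_iff, ← hy] at this
      exact (isIntegral_algebraMap_iff (algebraMap F L).injective).mp this
    obtain ⟨a, ha⟩ := IsIntegrallyClosed.isIntegral_iff.mp hy2
    refine ⟨a, ?_⟩
    apply Subtype.ext
    change algebraMap A L a = (b : L)
    rw [← hy, ← ha, ← IsScalarTower.algebraMap_apply]
  have hAw : ∀ a : A, algebraMap A L a ∈ w := hA
  have hAw' : ∀ a : A, algebraMap A L a ∈ w' := by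
    intro a
    have h1 : algebraMap A F a ∈ w.comap (algebraMap F L) := hA a
    rw [h] at h1
    exact h1
  have hC : ∀ c : integralClosure A L, algebraMap (integralClosure A L) L c ∈ w := fun c =>
    integral_mem w hAw c c.2
  have hC' : ∀ c : integralClosure A L, algebraMap (integralClosure A L) L c ∈ w' := fun c =>
    integral_mem w' hAw' c c.2
  have hunder : (cent w hC).under A = (cent w' hC').under A := by
    ext a
    rw [Ideal.under_def, Ideal.under_def, Ideal.mem_comap, Ideal.mem_comap, mem_cent, mem_cent]
    have h1 : ∀ O : ValuationSubring L, O.valuation (algebraMap (integralClosure A L) L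
        (algebraMap A (integralClosure A L) a)) < 1 ↔
        (O.comap (algebraMap F L)).valuation (algebraMap A F a) < 1 := by
      intro O
      rw [comap_val_lt_one]
      rfl
    rw [h1, h1, h]
  obtain ⟨σ, hσ⟩ := Algebra.IsInvariant.exists_smul_of_under_eq_of_profinite (A := A)
    (B := integralClosure A L) (G := L ≃ₐ[F] L) (cent w hC) (cent w' hC') hunder
  refine ⟨σ⁻¹, ?_⟩
  have hσ2 : ∀ c : integralClosure A L, w'.valuation (c : L) < 1 ↔
      w.valuation (σ⁻¹ (c : L)) < 1 := by
    intro c
    have h1 : c ∈ cent w' hC' ↔ σ⁻¹ • c ∈ cent w hC := by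
      rw [hσ]
      exact Ideal.mem_pointwise_smul_iff_inv_smul_mem
    rw [mem_cent, mem_cent] at h1
    have h2 : algebraMap (integralClosure A L) L (σ⁻¹ • c) = σ⁻¹ (c : L) := hsmul σ⁻¹ c
    rw [h2] at h1
    exact h1
  intro z
  set M := IntermediateField.adjoin F {z} with hM
  have hfd : FiniteDimensional F M :=
    IntermediateField.adjoin.finiteDimensional (Algebra.IsIntegral.isIntegral z)
  have hzM : z ∈ M := IntermediateField.mem_adjoin_simple_self F z
  let _ : Algebra A M := ((algebraMap F M).comp (algebraMap A F)).toAlgebra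
  have htowM : IsScalarTower A F M := .of_algebraMap_eq fun _ => rfl
  have htowML : IsScalarTower A M L := .of_algebraMap_eq fun _ => rfl
  have hne1 : ∀ O : ValuationSubring L, O.comap (algebraMap F L) ≠ ⊤ →
      O.comap (algebraMap M L) ≠ ⊤ := by
    intro O hO htop
    apply hO
    rw [eq_top_iff]
    intro y _
    have h1 : algebraMap F M y ∈ O.comap (algebraMap M L) := by rw [htop]; trivial
    exact h1
  have heq : w'.comap (algebraMap M L) =
      (w.comap ((σ⁻¹ : L ≃ₐ[F] L) : L →+* L)).comap (algebraMap M L) := by
    have hfix : ∀ y : F, (σ⁻¹ : L ≃ₐ[F] L) (algebraMap F L y) = algebraMap F L y := fun y =>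
      AlgEquiv.commutes _ _
    apply eq_of_integral_nonunits (A := A) (F := F)
    · intro a
      exact hAw' a
    · intro a
      rw [ValuationSubring.mem_comap, ValuationSubring.mem_comap]
      change (σ⁻¹ : L ≃ₐ[F] L) (algebraMap F L (algebraMap A F a)) ∈ w
      rw [hfix]
      exact hA a
    · exact hne1 w' (by rw [← h]; exact hne)
    · apply hne1
      intro htop
      apply hne
      rw [eq_top_iff]
      intro y _
      have h1 : y ∈ (w.comap ((σ⁻¹ : L ≃ₐ[F] L) : L →+* L)).comap (algebraMap F L) := by
        rw [htop]; trivial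
      rw [ValuationSubring.mem_comap, ValuationSubring.mem_comap] at h1
      have h2 : ((σ⁻¹ : L ≃ₐ[F] L) : L →+* L) (algebraMap F L y) = algebraMap F L y := hfix y
      rw [h2] at h1
      exact h1
    · intro c hc
      have hcL : IsIntegral A (c : L) := by
        have : IsIntegral A (algebraMap M L c) := hc.algebraMap
        exact this
      have h1 := hσ2 ⟨(c : L), hcL⟩
      rw [comap_val_lt_one, comap_val_lt_one, comap_val_lt_one]
      exact h1
  have h1 : (⟨z, hzM⟩ : M) ∈ w'.comap (algebraMap M L) ↔
      (⟨z, hzM⟩ : M) ∈ (w.comap ((σ⁻¹ : L ≃ₐ[F] L) : L →+* L)).comap (algebraMap M L) := by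
    rw [heq]
  exact h1

end Pool.Agent.H639R3
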