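import Pool.Agent.H639R3.Z.Layer

set_option autoImplicit false

/-!
The points of the layers of a `ℤ_p`-tower over a given closed point.
-/

namespace Pool.Agent.H639R3

/-- an affine Dedekind domain in the local ring of a point -/
theorem exists_base {k K : Type} [Field k] [Finite k] [Field K] [Algebra k K] (hK : IsCurve k K)
    (x : ClosedPoint k K) : ∃ A : Subalgebra k K, IsDedekindDomain A ∧ IsFractionRing A K ∧
      ∀ a ∈ A, a ∈ x.ring := by
  obtain ⟨t, ht, hfin, hsep⟩ := exists_separating hK
  rcases x.ring.mem_or_inv_mem t with h | h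
  · obtain ⟨A, h1, h2, h3, h4, h5, h6⟩ := exists_affine t ht hfin hsep
    exact ⟨A, h1, h2, fun a ha => h6 x.ring x.const_mem h a ha⟩
  · have hadj : IntermediateField.adjoin k {t⁻¹} = IntermediateField.adjoin k {t} :=
      adjoin_simple_inv' t
    obtain ⟨A, h1, h2, h3, h4, h5, h6⟩ := exists_affine (k := k) t⁻¹ (by
      intro halg
      exact ht (by simpa using halg.inv)) (by rw [hadj]; exact hfin) (by rw [hadj]; exact hsep)
    exact ⟨A, h1, h2, fun a ha => h6 x.ring x.const_mem h a ha⟩

namespace ZpTower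

variable {p : ℕ} [Fact p.Prime] {k K L : Type} [Field k] [Field K] [Field L]
    [Algebra k K] [Algebra K L] [Algebra k L] [IsScalarTower k K L] (T : ZpTower p k K L)

/-- the point of `X_n` below a valuation ring over `x` -/
noncomputable def pt (n : ℕ) (x : ClosedPoint k K) (w : ValuationSubring L)
    (hw : w.comap (algebraMap K L) = x.ring) : ClosedPoint k (T.layer n) where
  ring := w.comap (algebraMap (T.layer n) L)
  const_mem := by
    intro a
    have h1 := x.const_mem a
    rw [← hw] at h1
    rw [ValuationSubring.mem_comap] at h1 ⊢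
    rw [← IsScalarTower.algebraMap_apply] at h1
    exact h1
  ne_top := by
    intro h
    apply x.ne_top
    rw [← hw, eq_top_iff]
    intro a _
    have h1 : algebraMap K (T.layer n) a ∈ w.comap (algebraMap (T.layer n) L) := by
      rw [h]; trivial
    exact h1

/-- the point of `X` below a point of `X_n` -/
noncomputable def below (n : ℕ) (y : ClosedPoint k (T.layer n)) : ClosedPoint k K where
  ring := y.ring.comap (algebraMap K (T.layer n))
  const_mem := by
    intro a
    rw [ValuationSubring.mem_comap, ← IsScalarTower.algebraMap_apply]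
    exact y.const_mem a
  ne_top := by
    intro h
    apply y.ne_top
    rw [eq_top_iff]
    intro a _
    have := T.layer_finite n
    apply integral_mem (A := K) y.ring
    · intro b
      have h1 : b ∈ y.ring.comap (algebraMap K (T.layer n)) := by rw [h]; trivial
      exact h1
    · exact Algebra.IsIntegral.isIntegral a

theorem below_pt (n : ℕ) (x : ClosedPoint k K) (w : ValuationSubring L)
    (hw : w.comap (algebraMap K L) = x.ring) : T.below n (T.pt n x w hw) = x := by
  apply ClosedPoint.ext'
  exact hw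

theorem exists_pt (n : ℕ) (x : ClosedPoint k K) (y : ClosedPoint k (T.layer n))
    (hy : T.below n y = x) : ∃ (w : ValuationSubring L) (hw : w.comap (algebraMap K L) = x.ring),
      y = T.pt n x w hw := by
  obtain ⟨w, hw⟩ := exists_extension (L := L) y.ring
  have h1 : w.comap (algebraMap K L) = x.ring := by
    rw [← hy]
    change _ = y.ring.comap (algebraMap K (T.layer n))
    rw [← hw]
    rfl
  refine ⟨w, h1, ?_⟩
  apply ClosedPoint.ext'
  exact hw.symm

omit [Algebra k L] [IsScalarTower k K L] in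
theorem exists_over (x : ClosedPoint k K) : ∃ w : ValuationSubring L,
    w.comap (algebraMap K L) = x.ring := exists_extension x.ring

theorem exists_mv [Finite k] (x : ClosedPoint k K) (w w' : ValuationSubring L)
    (hw : w.comap (algebraMap K L) = x.ring) (hw' : w'.comap (algebraMap K L) = x.ring) :
    ∃ z, w' = T.mv z w := by
  have := T.galois
  obtain ⟨A, h1, h2, h3⟩ := exists_base T.curve x
  obtain ⟨σ, hσ⟩ := exists_aut (F := K) (A := A) w w' (by
    intro a
    have h4 := h3 _ a.2
    rw [← hw] at h4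
    exact h4) (by rw [hw]; exact x.ne_top) (by rw [hw, hw'])
  refine ⟨(T.iso σ).toAdd, ?_⟩
  ext a
  rw [mem_mv, aut_surj]
  exact hσ a

theorem exists_mv_layer [Finite k] (n : ℕ) (x : ClosedPoint k K) (w w' : ValuationSubring L)
    (hw : w.comap (algebraMap K L) = x.ring)
    (h : w.comap (algebraMap (T.layer n) L) = w'.comap (algebraMap (T.layer n) L)) :
    ∃ z, w' = T.mv ((p : ℤ_[p]) ^ n * z) w := by
  have := T.galois
  have := T.layer_finite n
  obtain ⟨A, h1, h2, h3⟩ := exists_base T.curve x
  have hD : IsDedekindDomain (integralClosure A (T.layer n)) :=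
    integralClosure.isDedekindDomain A K (L := T.layer n)
  have hFr : IsFractionRing (integralClosure A (T.layer n)) (T.layer n) :=
    integralClosure.isFractionRing_of_finite_extension K (T.layer n)
  obtain ⟨σ, hσ⟩ := exists_aut (F := T.layer n) (A := integralClosure A (T.layer n)) w w' (by
    intro a
    have h4 : (algebraMap (integralClosure A (T.layer n)) (T.layer n) a) ∈
        w.comap (algebraMap (T.layer n) L) := by
      apply integral_mem (A := A)
      · intro b
        have h5 := h3 _ b.2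
        rw [← hw] at h5
        exact h5
      · exact a.2
    exact h4) (T.pt n x w hw).ne_top h
  have hfix : σ.restrictScalars K ∈ T.sub n := by
    rw [T.mem_sub_iff]
    intro a ha
    exact σ.commutes ⟨a, ha⟩
  rw [T.mem_sub] at hfix
  obtain ⟨z, hz⟩ := hfix
  refine ⟨z, ?_⟩
  ext a
  rw [mem_mv, ← hz, aut_surj]
  exact hσ a

theorem mv_over (x : ClosedPoint k K) (w : ValuationSubring L)
    (hw : w.comap (algebraMap K L) = x.ring) (z : ℤ_[p]) :
    (T.mv z w).comap (algebraMap K L) = x.ring := by rw [mv_comap, hw]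

theorem deg_mv (n : ℕ) (x : ClosedPoint k K) (w : ValuationSubring L)
    (hw : w.comap (algebraMap K L) = x.ring) (z : ℤ_[p]) :
    (T.pt n x (T.mv z w) (T.mv_over x w hw z)).deg = (T.pt n x w hw).deg := by
  let f : T.layer n →+* T.layer n :=
    (((T.aut z : L ≃ₐ[K] L) : L →+* L).comp (algebraMap (T.layer n) L)).codRestrict
      (T.layer n).toSubfield.toSubring fun a => T.aut_layer n z _ a.2
  apply deg_eq_of_equiv _ _ f
  · intro a
    apply Subtype.ext
    change T.aut z (algebraMap (T.layer n) L (algebraMap k (T.layer n) a)) =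
      algebraMap (T.layer n) L (algebraMap k (T.layer n) a)
    have h1 : algebraMap (T.layer n) L (algebraMap k (T.layer n) a) =
        algebraMap K L (algebraMap k K a) := IsScalarTower.algebraMap_apply k K L a
    rw [h1, AlgEquiv.commutes]
  · intro a
    rfl
  · intro b
    refine ⟨⟨T.aut (-z) b, T.aut_layer n _ _ b.2⟩, ?_⟩
    apply Subtype.ext
    change T.aut z (T.aut (-z) b) = b
    rw [← aut_add, neg_add_cancel, aut_zero]

/-- the points over `x` in the `n`-th layer -/
theorem exists_index [Finite k] (n : ℕ) (x : ClosedPoint k K) (w : ValuationSubring L)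
    (hw : w.comap (algebraMap K L) = x.ring) (y : ClosedPoint k (T.layer n))
    (hy : T.below n y = x) : ∃ z : ℤ_[p], y = T.pt n x (T.mv z w) (T.mv_over x w hw z) := by
  obtain ⟨w', hw', hy'⟩ := T.exists_pt n x y hy
  obtain ⟨z, hz⟩ := T.exists_mv x w w' hw hw'
  subst hz
  exact ⟨z, hy'⟩

theorem pt_eq_of_dvd (n : ℕ) (x : ClosedPoint k K) (w : ValuationSubring L)
    (hw : w.comap (algebraMap K L) = x.ring) (z z' : ℤ_[p]) (h : (p : ℤ_[p]) ^ n ∣ z - z') :
    T.pt n x (T.mv z w) (T.mv_over x w hw z) = T.pt n x (T.mv z' w) (T.mv_over x w hw z') := by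
  apply ClosedPoint.ext'
  exact T.mv_comap_layer n z z' w h

theorem exists_nat_dvd (n : ℕ) (z : ℤ_[p]) : ∃ j : ℕ, j < p ^ n ∧ (p : ℤ_[p]) ^ n ∣ z - j := by
  refine ⟨z.appr n, z.appr_lt n, ?_⟩
  rw [← Ideal.mem_span_singleton]
  exact PadicInt.appr_spec n z

theorem pt_congr (n : ℕ) (x : ClosedPoint k K) (w w' : ValuationSubring L)
    (hw : w.comap (algebraMap K L) = x.ring) (hw' : w'.comap (algebraMap K L) = x.ring)
    (h : w = w') : T.pt n x w hw = T.pt n x w' hw' := by
  subst h
  rfl

/-- the enumeration of the points over `x` -/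
noncomputable def enum (n : ℕ) (x : ClosedPoint k K) (w : ValuationSubring L)
    (hw : w.comap (algebraMap K L) = x.ring) (j : ℕ) : ClosedPoint k (T.layer n) :=
  T.pt n x (T.mv (j : ℤ_[p]) w) (T.mv_over x w hw j)

theorem fiber_eq [Finite k] (n : ℕ) (x : ClosedPoint k K) (w : ValuationSubring L)
    (hw : w.comap (algebraMap K L) = x.ring) :
    {y : ClosedPoint k (T.layer n) | T.below n y = x} = T.enum n x w hw '' Set.Iio (p ^ n) := by
  ext y
  constructor
  · intro hy
    obtain ⟨z, hz⟩ := T.exists_index n x w hw y hy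
    obtain ⟨j, hj, hjz⟩ := exists_nat_dvd (p := p) n z
    refine ⟨j, hj, ?_⟩
    rw [hz]
    exact (T.pt_eq_of_dvd n x w hw z j hjz).symm
  · rintro ⟨j, -, rfl⟩
    exact T.below_pt n x _ _

theorem fiber_finite [Finite k] (n : ℕ) (x : ClosedPoint k K) :
    {y : ClosedPoint k (T.layer n) | T.below n y = x}.Finite := by
  obtain ⟨w, hw⟩ := exists_over (L := L) x
  rw [T.fiber_eq n x w hw]
  exact (Set.finite_Iio _).image _

theorem fiber_deg [Finite k] (n : ℕ) (x : ClosedPoint k K) (w : ValuationSubring L)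
    (hw : w.comap (algebraMap K L) = x.ring) (y : ClosedPoint k (T.layer n))
    (hy : T.below n y = x) : y.deg = (T.pt n x w hw).deg := by
  obtain ⟨z, hz⟩ := T.exists_index n x w hw y hy
  rw [hz, deg_mv]

/-- completely split points -/
theorem fiber_card_split [Finite k] (n : ℕ) (x : ClosedPoint k K) (w : ValuationSubring L)
    (hw : w.comap (algebraMap K L) = x.ring) (h : ∀ z, T.mv z w = w → z = 0) :
    {y : ClosedPoint k (T.layer n) | T.below n y = x}.ncard = p ^ n := by
  rw [T.fiber_eq n x w hw, Set.InjOn.ncard_image]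
  · rw [← Finset.coe_Iio, Set.ncard_coe_finset, Nat.card_Iio]
  · intro i hi j hj hij
    have h1 : (T.mv (i : ℤ_[p]) w).comap (algebraMap (T.layer n) L) =
        (T.mv (j : ℤ_[p]) w).comap (algebraMap (T.layer n) L) := congrArg ClosedPoint.ring hij
    obtain ⟨z, hz⟩ := T.exists_mv_layer n x _ _ (T.mv_over x w hw i) h1
    rw [← mv_add] at hz
    have h2 : T.mv ((j : ℤ_[p]) - (p ^ n * z + i)) w = w := by
      have h3 := congrArg (T.mv (-(((p : ℤ_[p]) ^ n * z + i)))) hz
      rw [← mv_add, ← mv_add, neg_add_cancel, mv_zero] at h3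
      rw [sub_eq_neg_add]
      exact h3
    have h3 := h _ h2
    have h4 : ((j : ℤ_[p]) - i) = p ^ n * z := by linear_combination h3
    have h5 : (p : ℤ_[p]) ^ n ∣ ((j : ℤ) - (i : ℤ) : ℤ) := by
      push_cast
      exact ⟨z, h4⟩
    rw [PadicInt.pow_p_dvd_int_iff] at h5
    have hi' : i < p ^ n := hi
    have hj' : j < p ^ n := hj
    have h6 : ((p ^ n : ℕ) : ℤ) ∣ (j : ℤ) - i := by exact_mod_cast h5
    obtain ⟨c, hc⟩ := h6
    have h7 : (j : ℤ) - i < (p ^ n : ℕ) := by omega
    have h8 : -((p ^ n : ℕ) : ℤ) < (j : ℤ) - i := by omega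
    rw [hc] at h7 h8
    have hP : (0 : ℤ) < (p ^ n : ℕ) := by omega
    have h9 : c < 1 := by
      by_contra hcon
      have : ((p ^ n : ℕ) : ℤ) * 1 ≤ (p ^ n : ℕ) * c := by
        apply mul_le_mul_of_nonneg_left _ hP.le
        omega
      omega
    have h10 : -1 < c := by
      by_contra hcon
      have : ((p ^ n : ℕ) : ℤ) * c ≤ (p ^ n : ℕ) * (-1) := by
        apply mul_le_mul_of_nonneg_left _ hP.le
        omega
      omega
    have h11 : c = 0 := by omega
    rw [h11, mul_zero] at hc
    omega

/-- points with nontrivial decomposition group -/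
theorem fiber_card_le [Finite k] (x : ClosedPoint k K) (w : ValuationSubring L)
    (hw : w.comap (algebraMap K L) = x.ring) (δ : ℤ_[p]) (hδ : δ ≠ 0) (h : T.mv δ w = w) (n : ℕ) :
    {y : ClosedPoint k (T.layer n) | T.below n y = x}.ncard ≤ p ^ δ.valuation := by
  set v := δ.valuation with hv
  have hmul : ∀ m : ℕ, T.mv (m * δ) w = w := by
    intro m
    induction m with
    | zero => rw [Nat.cast_zero, zero_mul, mv_zero]
    | succ m ih =>
      rw [Nat.cast_add, Nat.cast_one, add_mul, one_mul, mv_add, h, ih]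
  have hsub : {y : ClosedPoint k (T.layer n) | T.below n y = x} ⊆
      T.enum n x w hw '' Set.Iio (p ^ v) := by
    intro y hy
    obtain ⟨z, hz⟩ := T.exists_index n x w hw y hy
    obtain ⟨j, hj, c, hc⟩ := exists_nat_dvd (p := p) v z
    refine ⟨j, hj, ?_⟩
    -- z - j = p ^ v c, and δ = unit * p ^ v
    have hδ2 := PadicInt.unitCoeff_spec hδ
    obtain ⟨m, -, e, he⟩ := exists_nat_dvd (p := p) n
      (((PadicInt.unitCoeff hδ)⁻¹ : ℤ_[p]ˣ) * c)
    rw [← hv] at hδ2
    have h1 : z = ((p : ℤ_[p]) ^ n * (e * δ) + j) + m * δ := by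
      have h2 : ((PadicInt.unitCoeff hδ)⁻¹ : ℤ_[p]ˣ) * c * δ = (p : ℤ_[p]) ^ v * c := by
        have h3 : (((PadicInt.unitCoeff hδ)⁻¹ : ℤ_[p]ˣ) : ℤ_[p]) * (PadicInt.unitCoeff hδ) = 1 :=
          Units.inv_mul _
        linear_combination (((PadicInt.unitCoeff hδ)⁻¹ : ℤ_[p]ˣ) * c) * hδ2 +
          (c * (p : ℤ_[p]) ^ v) * h3
      linear_combination hc - h2 + δ * he
    rw [hz]
    unfold enum
    have h4 : T.mv z w = T.mv ((p : ℤ_[p]) ^ n * (e * δ) + j) w := by
      rw [h1, mv_add, hmul]
    rw [T.pt_congr n x _ _ (T.mv_over x w hw z) (T.mv_over x w hw _) h4]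
    apply T.pt_eq_of_dvd n x w hw
    exact ⟨-(e * δ), by ring⟩
  calc _ ≤ (T.enum n x w hw '' Set.Iio (p ^ v)).ncard :=
        Set.ncard_le_ncard hsub ((Set.finite_Iio _).image _)
    _ ≤ (Set.Iio (p ^ v)).ncard := Set.ncard_image_le (Set.finite_Iio _)
    _ = p ^ v := by rw [← Finset.coe_Iio, Set.ncard_coe_finset, Nat.card_Iio]

end ZpTower

end Pool.Agent.H639R3
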