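import Pool.Agent.H639R3.Z.Fiber

set_option autoImplicit false

/-!
The number of points of the layers of a `ℤ_p`-tower.
-/

namespace Pool.Agent.H639R3

/-- the number `∑_{deg y ∣ m} deg y` of points of degree one over the extension of degree `m` -/
noncomputable def numPts (k F : Type) [Field k] [Field F] [Algebra k F] (m : ℕ) : ℕ :=
  ∑ᶠ y ∈ {y : ClosedPoint k F | y.deg ∣ m}, y.deg

theorem deg_le_of_le {k K L : Type} [Field k] [Finite k] [Field K] [Field L]
    [Algebra k K] [Algebra K L] [Algebra k L] [IsScalarTower k K L] (F₁ F₂ : IntermediateField K L)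
    (hle : F₁ ≤ F₂) (hF₂ : IsCurve k F₂) (y₁ : ClosedPoint k F₁) (y₂ : ClosedPoint k F₂)
    (w : ValuationSubring L) (h₁ : ∀ a, a ∈ y₁.ring ↔ algebraMap F₁ L a ∈ w)
    (h₂ : ∀ a, a ∈ y₂.ring ↔ algebraMap F₂ L a ∈ w) : y₁.deg ≤ y₂.deg := by
  let f : F₁ →+* F₂ := (algebraMap F₁ L).codRestrict F₂.toSubfield.toSubring fun a => hle a.2
  have hf : ∀ a : F₁, algebraMap F₂ L (f a) = algebraMap F₁ L a := fun a => rfl
  have hk : ∀ (F : IntermediateField K L) (a : k), algebraMap F L (algebraMap k F a) =
    algebraMap K L (algebraMap k K a) := fun F a => IsScalarTower.algebraMap_apply k K L a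
  apply deg_le_of_hom hF₂ _ _ f
  · intro a
    apply (algebraMap F₂ L).injective
    rw [hf, hk, hk]
  · intro a
    rw [h₁, h₂, hf]

namespace ZpTower

variable {p : ℕ} [Fact p.Prime] {k K L : Type} [Field k] [Field K] [Field L]
    [Algebra k K] [Algebra K L] [Algebra k L] [IsScalarTower k K L] (T : ZpTower p k K L)

theorem deg_mono [Finite k] {m n : ℕ} (h : m ≤ n) (x : ClosedPoint k K) (w : ValuationSubring L)
    (hw : w.comap (algebraMap K L) = x.ring) : (T.pt m x w hw).deg ≤ (T.pt n x w hw).deg :=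
  deg_le_of_le (T.layer m) (T.layer n) (T.layer_mono h) (T.isCurve_layer n) _ _ w
    (fun _ => ValuationSubring.mem_comap) (fun _ => ValuationSubring.mem_comap)

theorem deg_below_le [Finite k] (n : ℕ) (y : ClosedPoint k (T.layer n)) :
    (T.below n y).deg ≤ y.deg := by
  apply deg_le_of_hom (T.isCurve_layer n) _ _ (algebraMap K (T.layer n))
  · intro a
    exact (IsScalarTower.algebraMap_apply k K (T.layer n) a).symm
  · intro a
    rfl

open Polynomial in
theorem unbounded_deg [Finite k] (x : ClosedPoint k K) (hx : x ∉ T.S) (w : ValuationSubring L)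
    (hw : w.comap (algebraMap K L) = x.ring) (δ : ℤ_[p]) (hδ : δ ≠ 0) (h : T.mv δ w = w) (B : ℕ) :
    ∃ n, B < (T.pt n x w hw).deg := by
  classical
  by_contra hcon
  push Not at hcon
  have hq : 1 < Nat.card k := Finite.one_lt_card
  -- the residue field of w is finite
  have hfin : Finite (IsLocalRing.ResidueField w) := by
    set F : (IsLocalRing.ResidueField w)[X] :=
      ∏ j ∈ Finset.range B, (X ^ (Nat.card k) ^ (j + 1) - X) with hF
    have hF0 : F ≠ 0 := by
      rw [hF, Finset.prod_ne_zero_iff]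
      intro j _
      apply FiniteField.X_pow_card_sub_X_ne_zero
      exact Nat.one_lt_pow (Nat.succ_ne_zero j) hq
    have hroot : ∀ r : IsLocalRing.ResidueField w, r ∈ (F.roots.toFinset : Set _) := by
      intro r
      obtain ⟨a, rfl⟩ := IsLocalRing.residue_surjective r
      rw [Finset.mem_coe, Multiset.mem_toFinset, mem_roots hF0, IsRoot.def]
      obtain ⟨n, hn⟩ := T.exists_layer (a : L)
      set y := T.pt n x w hw with hy
      have hpos : 0 < y.deg := y.deg_pos (T.isCurve_layer n)
      have hle : y.deg ≤ B := hcon n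
      obtain ⟨j, hj⟩ : ∃ j, y.deg = j + 1 := ⟨y.deg - 1, by omega⟩
      have hmem : (⟨(a : L), hn⟩ : T.layer n) ∈ y.ring := a.2
      have h1 := frob_fixed y (y.finite_residue (T.isCurve_layer n))
        (IsLocalRing.residue y.ring ⟨⟨(a : L), hn⟩, hmem⟩)
      rw [← map_pow, ← sub_eq_zero, ← map_sub, IsLocalRing.residue_eq_zero_iff,
        ValuationSubring.valuation_lt_one_iff] at h1
      have h2 : w.valuation ((a : L) ^ (Nat.card k) ^ y.deg - a) < 1 := by
        have h3 := (comap_val_lt_one w (algebraMap (T.layer n) L)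
          ((⟨(a : L), hn⟩ : T.layer n) ^ (Nat.card k) ^ y.deg - ⟨(a : L), hn⟩)).mp h1
        exact h3
      have h4 : IsLocalRing.residue w a ^ (Nat.card k) ^ y.deg - IsLocalRing.residue w a = 0 := by
        rw [← map_pow, ← map_sub, IsLocalRing.residue_eq_zero_iff,
          ValuationSubring.valuation_lt_one_iff]
        exact h2
      rw [hF, eval_prod]
      apply Finset.prod_eq_zero (i := j)
      · rw [Finset.mem_range]
        omega
      · rw [eval_sub, eval_pow, eval_X, ← hj]
        exact h4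
    exact Set.finite_univ_iff.mp ((Finset.finite_toSet _).subset fun r _ => hroot r)
  -- the automorphism of w
  have hmem : ∀ a : L, a ∈ w ↔ T.aut δ a ∈ w := by
    intro a
    conv_lhs => rw [← h]
    rw [mem_mv]
  let g : w ≃+* w :=
    { toFun := fun a => ⟨T.aut δ a, (hmem a).mp a.2⟩
      invFun := fun a => ⟨(T.aut δ).symm a, (hmem _).mpr (by
        rw [AlgEquiv.apply_symm_apply]; exact a.2)⟩
      left_inv := fun a => Subtype.ext (by simp)
      right_inv := fun a => Subtype.ext (by simp)
      map_mul' := fun a b => Subtype.ext (by simp)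
      map_add' := fun a b => Subtype.ext (by simp) }
  have hfinAut : Finite (RingAut (IsLocalRing.ResidueField w)) :=
    Finite.of_injective (fun f : RingAut (IsLocalRing.ResidueField w) =>
      (f : IsLocalRing.ResidueField w → IsLocalRing.ResidueField w)) DFunLike.coe_injective
  obtain ⟨m, hm, hgm⟩ := isOfFinOrder_iff_pow_eq_one.mp
    (isOfFinOrder_of_finite (IsLocalRing.ResidueField.mapAut (R := w) g))
  rw [← map_pow] at hgm
  have hpow : ∀ (j : ℕ) (a : w), (((g ^ j : RingAut w) a : w) : L) = T.aut (j * δ) a := by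
    intro j
    induction j with
    | zero =>
      intro a
      rw [Nat.cast_zero, zero_mul, aut_zero]
      rfl
    | succ j ih =>
      intro a
      rw [pow_succ', Nat.cast_add, Nat.cast_one, add_mul, one_mul, aut_add, ← ih]
      rfl
  have hone : T.aut (m * δ) = 1 := by
    refine T.unramified x hx w hw (T.aut (m * δ)) ?_ ?_
    · intro a
      have : ∀ j : ℕ, a ∈ w ↔ T.aut (j * δ) a ∈ w := by
        intro j
        induction j with
        | zero => rw [Nat.cast_zero, zero_mul, aut_zero]
        | succ j ih =>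
          rw [Nat.cast_add, Nat.cast_one, add_mul, one_mul, aut_add, ← hmem]
          exact ih
      exact this m
    · intro a ha
      have h1 : IsLocalRing.ResidueField.mapAut (g ^ m : RingAut w)
          (IsLocalRing.residue w ⟨a, ha⟩) = IsLocalRing.residue w ⟨a, ha⟩ := by
        rw [hgm]
        rfl
      have h2 : IsLocalRing.ResidueField.mapAut (g ^ m : RingAut w)
          (IsLocalRing.residue w ⟨a, ha⟩) = IsLocalRing.residue w ((g ^ m : RingAut w) ⟨a, ha⟩) :=
        rfl
      rw [h2, ← sub_eq_zero, ← map_sub, IsLocalRing.residue_eq_zero_iff,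
        ValuationSubring.valuation_lt_one_iff] at h1
      have h3 : (((g ^ m : RingAut w) ⟨a, ha⟩ - ⟨a, ha⟩ : w) : L) = T.aut (m * δ) a - a := by
        rw [← hpow m ⟨a, ha⟩]
        rfl
      rw [h3] at h1
      exact h1
  have h5 := T.aut_injective hone
  rcases mul_eq_zero.mp h5 with h6 | h6
  · have : m = 0 := by exact_mod_cast h6
    omega
  · exact hδ h6

theorem ev_const (d : ℕ → ℕ) (hd : Monotone d) (K : ℕ) (hK : 0 < K) :
    ∃ c n0 : ℕ, ∀ n, n0 ≤ n → (if d n ∣ K then d n else 0) = c := by
  classical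
  by_cases h : ∃ n, K < d n
  · obtain ⟨n0, hn0⟩ := h
    refine ⟨0, n0, fun n hn => ?_⟩
    rw [if_neg]
    intro hdvd
    have h1 := Nat.le_of_dvd hK hdvd
    have h2 := hd hn
    omega
  · push Not at h
    have hex : ∃ m, ∃ n, K - d n = m := ⟨_, 0, rfl⟩
    obtain ⟨n0, hn0⟩ := Nat.find_spec hex
    refine ⟨if d n0 ∣ K then d n0 else 0, n0, fun n hn => ?_⟩
    have h1 := hd hn
    have h2 : Nat.find hex ≤ K - d n := Nat.find_min' hex ⟨n, rfl⟩
    have h3 := h n
    have h4 := h n0
    have h5 : d n = d n0 := by omega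
    rw [h5]

/-- the contribution of the points over `x` -/
noncomputable def contrib [Finite k] (n : ℕ) (x : ClosedPoint k K) (m : ℕ) : ℕ :=
  ∑ y ∈ (T.fiber_finite n x).toFinset, if y.deg ∣ m then y.deg else 0

theorem contrib_eq [Finite k] (n : ℕ) (x : ClosedPoint k K) (m : ℕ) (w : ValuationSubring L)
    (hw : w.comap (algebraMap K L) = x.ring) : T.contrib n x m =
      {y : ClosedPoint k (T.layer n) | T.below n y = x}.ncard *
        (if (T.pt n x w hw).deg ∣ m then (T.pt n x w hw).deg else 0) := by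
  unfold contrib
  rw [Set.ncard_eq_toFinset_card _ (T.fiber_finite n x), ← smul_eq_mul, ← Finset.sum_const]
  apply Finset.sum_congr rfl
  intro y hy
  rw [Set.Finite.mem_toFinset] at hy
  rw [T.fiber_deg n x w hw y hy]

theorem local_contrib [Finite k] (x : ClosedPoint k K) : ∃ (M : ℕ → ℕ) (R : ℕ),
    (x ∉ T.S → R = 0) ∧ ∀ m, 0 < m → ∃ n0, ∀ n, n0 ≤ n →
      p ^ n * M m ≤ T.contrib n x m ∧ T.contrib n x m ≤ p ^ n * M m + R := by
  classical
  obtain ⟨w, hw⟩ := exists_over (L := L) x
  have hmono : Monotone fun n => (T.pt n x w hw).deg := fun a b h => T.deg_mono h x w hw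
  by_cases hD : ∀ z, T.mv z w = w → z = 0
  · -- completely split
    have h1 := fun m (hm : 0 < m) => ev_const _ hmono m hm
    choose! M n0 h2 using h1
    refine ⟨M, 0, fun _ => rfl, fun m hm => ⟨n0 m, fun n hn => ?_⟩⟩
    rw [T.contrib_eq n x m w hw, T.fiber_card_split n x w hw hD, h2 m hm n hn]
    exact ⟨le_rfl, le_rfl⟩
  · push Not at hD
    obtain ⟨δ, hδw, hδ⟩ := hD
    by_cases hB : ∃ B, ∀ n, (T.pt n x w hw).deg ≤ B
    · obtain ⟨B, hB⟩ := hB
      refine ⟨fun _ => 0, p ^ δ.valuation * B, fun hx => ?_, fun m hm => ⟨0, fun n _ => ?_⟩⟩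
      · obtain ⟨n, hn⟩ := T.unbounded_deg x hx w hw δ hδ hδw B
        exact absurd (hB n) (not_le.mpr hn)
      · rw [mul_zero, zero_add]
        refine ⟨Nat.zero_le _, ?_⟩
        rw [T.contrib_eq n x m w hw]
        apply Nat.mul_le_mul (T.fiber_card_le x w hw δ hδ hδw n)
        split_ifs
        · exact hB n
        · exact Nat.zero_le _
    · push Not at hB
      refine ⟨fun _ => 0, 0, fun _ => rfl, fun m hm => ?_⟩
      obtain ⟨n0, hn0⟩ := hB m
      refine ⟨n0, fun n hn => ?_⟩
      have h3 : m < (T.pt n x w hw).deg := lt_of_lt_of_le hn0 (hmono hn)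
      rw [T.contrib_eq n x m w hw, if_neg]
      · simp
      · intro hdvd
        have := Nat.le_of_dvd hm hdvd
        omega

theorem numPts_eq [Finite k] (n m : ℕ) (hm : 0 < m) : numPts k (T.layer n) m =
    ∑ x ∈ (finite_points T.curve m).toFinset, T.contrib n x m := by
  classical
  have hfin : {y : ClosedPoint k (T.layer n) | y.deg ∣ m}.Finite :=
    (finite_points (T.isCurve_layer n) m).subset fun y hy => Nat.le_of_dvd hm hy
  unfold numPts
  rw [finsum_mem_eq_finite_toFinset_sum _ hfin]
  have hmaps : ∀ y ∈ hfin.toFinset, T.below n y ∈ (finite_points T.curve m).toFinset := by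
    intro y hy
    rw [Set.Finite.mem_toFinset, Set.mem_ofPred_eq] at hy ⊢
    exact (T.deg_below_le n y).trans (Nat.le_of_dvd hm hy)
  rw [← Finset.sum_fiberwise_of_maps_to hmaps]
  apply Finset.sum_congr rfl
  intro x _
  unfold contrib
  rw [← Finset.sum_filter]
  apply Finset.sum_congr
  · ext y
    simp only [Finset.mem_filter, Set.Finite.mem_toFinset, Set.mem_ofPred_eq]
    exact and_comm
  · intro y _
    rfl

/-- The asymptotic formula for the number of points of the layers. -/
theorem numPts_asymp [Finite k] : ∃ (M : ℕ → ℕ) (R : ℕ), ∀ m, 0 < m → ∃ n0, ∀ n, n0 ≤ n →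
      p ^ n * M m ≤ numPts k (T.layer n) m ∧ numPts k (T.layer n) m ≤ p ^ n * M m + R := by
  classical
  have h := T.local_contrib
  choose M R hR hM using h
  have hM2 : ∀ (x : ClosedPoint k K) (m : ℕ), ∃ n0, 0 < m → ∀ n, n0 ≤ n →
      p ^ n * M x m ≤ T.contrib n x m ∧ T.contrib n x m ≤ p ^ n * M x m + R x := by
    intro x m
    by_cases hm : 0 < m
    · obtain ⟨n0, hn0⟩ := hM x m hm
      exact ⟨n0, fun _ => hn0⟩
    · exact ⟨0, fun h => absurd h hm⟩
  choose n0 hn0 using hM2
  refine ⟨fun m => ∑ x ∈ (finite_points T.curve m).toFinset, M x m,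
    ∑ x ∈ T.finite.toFinset, R x, fun m hm => ?_⟩
  refine ⟨∑ x ∈ (finite_points T.curve m).toFinset, n0 x m, fun n hn => ?_⟩
  have hn1 : ∀ x ∈ (finite_points T.curve m).toFinset, n0 x m ≤ n := fun x hx =>
    (Finset.single_le_sum (f := fun x => n0 x m) (fun _ _ => Nat.zero_le _) hx).trans hn
  rw [T.numPts_eq n m hm, Finset.mul_sum]
  constructor
  · exact Finset.sum_le_sum fun x hx => (hn0 x m hm n (hn1 x hx)).1
  · calc ∑ x ∈ (finite_points T.curve m).toFinset, T.contrib n x m ≤
        ∑ x ∈ (finite_points T.curve m).toFinset, (p ^ n * M x m + R x) :=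
          Finset.sum_le_sum fun x hx => (hn0 x m hm n (hn1 x hx)).2
      _ = ∑ x ∈ (finite_points T.curve m).toFinset, p ^ n * M x m +
          ∑ x ∈ (finite_points T.curve m).toFinset, R x := Finset.sum_add_distrib
      _ ≤ _ := by
          apply Nat.add_le_add_left
          rw [← Finset.sum_filter_add_sum_filter_not _ (fun x => x ∈ T.S)]
          have h2 : ∑ x ∈ (finite_points T.curve m).toFinset.filter (fun x => ¬ x ∈ T.S), R x = 0 :=
            Finset.sum_eq_zero fun x hx => hR x (Finset.mem_filter.mp hx).2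
          rw [h2, add_zero]
          apply Finset.sum_le_sum_of_subset
          intro x hx
          rw [Set.Finite.mem_toFinset]
          exact (Finset.mem_filter.mp hx).2

end ZpTower

end Pool.Agent.H639R3
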