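import Mathlib

set_option autoImplicit false

/-!
Power sums of complex numbers: positivity forces bounds.
-/

namespace Pool.Agent.H639R3

open Filter Polynomial

/-- simultaneous approximation: arbitrarily large multiples `k` of `m` for which all `α ^ k` are
close to `|α| ^ k` -/
theorem exists_good (A : Finset ℂ) (m : ℕ) (hm : 0 < m) (K : ℕ) :
    ∃ k, K ≤ k ∧ 0 < k ∧ m ∣ k ∧ ∀ α ∈ A, ‖α‖ ^ k / 2 ≤ (α ^ k).re := by
  set u : ℂ → ℂ := fun α => if α = 0 then 1 else α / ‖α‖ with hu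
  have hu1 : ∀ α, ‖u α‖ = 1 := by
    intro α
    rw [hu]
    simp only
    split_ifs with h
    · simp
    · rw [norm_div, Complex.norm_real, norm_norm, div_self (norm_ne_zero_iff.mpr h)]
  set x : ℕ → (A → ℂ) := fun j α => u α ^ (m * j) with hx
  have hxb : ∀ j, x j ∈ Metric.closedBall (0 : A → ℂ) 1 := by
    intro j
    rw [mem_closedBall_zero_iff, pi_norm_le_iff_of_nonneg zero_le_one]
    intro α
    rw [hx]
    simp only
    rw [norm_pow, hu1, one_pow]
  obtain ⟨a, -, φ, hφ, hlim⟩ := tendsto_subseq_of_bounded Metric.isBounded_closedBall hxb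
  have hc := hlim.cauchySeq
  obtain ⟨N0, hN0⟩ := Metric.cauchySeq_iff'.mp hc (1 / 2) (by norm_num)
  set n := N0 + (K + 1) with hn
  have h1 := hN0 n (by omega)
  have hφn : φ N0 + (K + 1) ≤ φ n := by
    rw [hn]
    have : ∀ j, φ N0 + j ≤ φ (N0 + j) := by
      intro j
      induction j with
      | zero => exact le_rfl
      | succ j ih =>
        have h2 : φ (N0 + j) < φ (N0 + (j + 1)) := hφ (by omega)
        omega
    exact this (K + 1)
  set l := φ n - φ N0 with hl
  have hl1 : K + 1 ≤ l := by omega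
  refine ⟨m * l, ?_, ?_, dvd_mul_right _ _, ?_⟩
  · calc K ≤ l := by omega
      _ = 1 * l := (one_mul l).symm
      _ ≤ m * l := Nat.mul_le_mul_right _ hm
  · exact Nat.mul_pos hm (by omega)
  · intro α hα
    have h2 : ‖u α ^ (m * l) - 1‖ < 1 / 2 := by
      have h3 := (dist_le_pi_dist ((x ∘ φ) n) ((x ∘ φ) N0) ⟨α, hα⟩).trans_lt h1
      rw [dist_eq_norm] at h3
      have h4 : (x ∘ φ) n ⟨α, hα⟩ - (x ∘ φ) N0 ⟨α, hα⟩ =
          u α ^ (m * φ N0) * (u α ^ (m * l) - 1) := by
        have h5 : m * φ n = m * φ N0 + m * l := by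
          rw [← mul_add]
          congr 1
          omega
        change u α ^ (m * φ n) - u α ^ (m * φ N0) = _
        rw [h5, pow_add]
        ring
      rw [h4, norm_mul, norm_pow, hu1, one_pow, one_mul] at h3
      exact h3
    have h3 : 1 / 2 ≤ (u α ^ (m * l)).re := by
      have h4 := (Complex.abs_re_le_norm (u α ^ (m * l) - 1)).trans_lt h2
      rw [Complex.sub_re, Complex.one_re, abs_lt] at h4
      linarith [h4.1]
    have h4 : α ^ (m * l) = ((‖α‖ ^ (m * l) : ℝ) : ℂ) * u α ^ (m * l) := by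
      by_cases h : α = 0
      · have h5 : m * l ≠ 0 := (Nat.mul_pos hm (by omega)).ne'
        rw [h, norm_zero, zero_pow h5, zero_pow h5]
        simp
      · rw [hu]
        simp only [if_neg h]
        rw [div_pow]
        have : ((‖α‖ : ℝ) : ℂ) ≠ 0 := by
          rw [Ne, Complex.ofReal_eq_zero, norm_eq_zero]
          exact h
        push_cast
        field_simp
    rw [h4, Complex.re_ofReal_mul]
    have h5 : 0 ≤ ‖α‖ ^ (m * l) := by positivity
    calc ‖α‖ ^ (m * l) / 2 = ‖α‖ ^ (m * l) * (1 / 2) := by ring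
      _ ≤ _ := mul_le_mul_of_nonneg_left h3 h5

theorem re_sum (A : Multiset ℂ) (k : ℕ) :
    ((A.map fun α => α ^ k).sum).re = (A.map fun α => (α ^ k).re).sum := by
  induction A using Multiset.induction_on with
  | empty => simp
  | cons a A ih =>
    rw [Multiset.map_cons, Multiset.sum_cons, Multiset.map_cons, Multiset.sum_cons, Complex.add_re,
      ih]

theorem norm_le_q (q : ℕ) (hq : 1 ≤ q) (A : Multiset ℂ) (N : ℕ → ℕ)
    (h : ∀ m, 0 < m → (N m : ℂ) = (q : ℂ) ^ m + 1 - (A.map fun α => α ^ m).sum) :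
    ∀ α ∈ A, ‖α‖ ≤ q := by
  classical
  intro α hα
  by_contra hcon
  rw [not_le] at hcon
  have hq0 : (1 : ℝ) ≤ q := by exact_mod_cast hq
  have hr : 1 < ‖α‖ / q := by rw [lt_div_iff₀ (by linarith)]; linarith
  obtain ⟨K, hK⟩ := (tendsto_pow_atTop_atTop_of_one_lt hr).eventually_gt_atTop 4 |>.exists_forall_of_atTop
  obtain ⟨k, hk1, hk2, -, hk3⟩ := exists_good A.toFinset 1 one_pos K
  have h1 := h k hk2
  obtain ⟨A', rfl⟩ := Multiset.exists_cons_of_mem hα
  have h2 := congrArg Complex.re h1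
  rw [Complex.sub_re, re_sum, Multiset.map_cons, Multiset.sum_cons] at h2
  have h3 : 0 ≤ (A'.map fun α => (α ^ k).re).sum := by
    apply Multiset.sum_nonneg
    intro b hb
    rw [Multiset.mem_map] at hb
    obtain ⟨β, hβ, rfl⟩ := hb
    have := hk3 β (by rw [Multiset.mem_toFinset]; exact Multiset.mem_cons_of_mem hβ)
    have h4 : 0 ≤ ‖β‖ ^ k / 2 := by positivity
    linarith
  have h4 := hk3 α (by rw [Multiset.mem_toFinset]; exact hα)
  have h5 : ((q : ℂ) ^ k + 1).re = (q : ℝ) ^ k + 1 := by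
    have : ((q : ℂ) ^ k + 1) = (((q : ℝ) ^ k + 1 : ℝ) : ℂ) := by push_cast; ring
    rw [this, Complex.ofReal_re]
  rw [h5, Complex.natCast_re] at h2
  have h6 := hK k hk1
  rw [div_pow, lt_div_iff₀ (by positivity)] at h6
  have h7 : (1 : ℝ) ≤ (q : ℝ) ^ k := one_le_pow₀ hq0
  have h8 : (0 : ℝ) ≤ N k := Nat.cast_nonneg _
  linarith

theorem q_not_mem (q : ℕ) (A : Multiset ℂ) (N : ℕ → ℕ)
    (h : ∀ m, 0 < m → (N m : ℂ) = (q : ℂ) ^ m + 1 - (A.map fun α => α ^ m).sum)
    (m : ℕ) (hm : 0 < m) (hN : ∀ k, 0 < k → m ∣ k → 2 ≤ N k) : (q : ℂ) ∉ A := by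
  classical
  intro hα
  obtain ⟨k, -, hk2, hmk, hk3⟩ := exists_good A.toFinset m hm 0
  have h1 := h k hk2
  obtain ⟨A', rfl⟩ := Multiset.exists_cons_of_mem hα
  rw [Multiset.map_cons, Multiset.sum_cons] at h1
  have h2 : (N k : ℂ) = 1 - (A'.map fun α => α ^ k).sum := by rw [h1]; ring
  have h3 := congrArg Complex.re h2
  rw [Complex.sub_re, re_sum, Complex.natCast_re, Complex.one_re] at h3
  have h4 : 0 ≤ (A'.map fun α => (α ^ k).re).sum := by
    apply Multiset.sum_nonneg
    intro b hb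
    rw [Multiset.mem_map] at hb
    obtain ⟨β, hβ, rfl⟩ := hb
    have := hk3 β (by rw [Multiset.mem_toFinset]; exact Multiset.mem_cons_of_mem hβ)
    have h4 : 0 ≤ ‖β‖ ^ k / 2 := by positivity
    linarith
  have h5 : (2 : ℝ) ≤ N k := by exact_mod_cast hN k hk2 hmk
  linarith

/-- the operator given by a polynomial in the shift -/
noncomputable def op (T : ℂ[X]) (s : ℕ → ℂ) (k : ℕ) : ℂ :=
  ∑ j ∈ Finset.range (T.natDegree + 1), T.coeff j * s (k + j)

theorem op_congr (T : ℂ[X]) (s s' : ℕ → ℂ) (h : ∀ k, 0 < k → s k = s' k) (k : ℕ) (hk : 0 < k) :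
    op T s k = op T s' k := by
  unfold op
  exact Finset.sum_congr rfl fun j _ => by rw [h (k + j) (by omega)]

theorem op_sub (T : ℂ[X]) (s s' : ℕ → ℂ) (k : ℕ) :
    op T (fun k => s k - s' k) k = op T s k - op T s' k := by
  unfold op
  rw [← Finset.sum_sub_distrib]
  exact Finset.sum_congr rfl fun j _ => by ring

theorem op_add (T : ℂ[X]) (s s' : ℕ → ℂ) (k : ℕ) :
    op T (fun k => s k + s' k) k = op T s k + op T s' k := by
  unfold op
  rw [← Finset.sum_add_distrib]
  exact Finset.sum_congr rfl fun j _ => by ring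

theorem op_mul (T : ℂ[X]) (c : ℂ) (s : ℕ → ℂ) (k : ℕ) :
    op T (fun k => c * s k) k = c * op T s k := by
  unfold op
  rw [Finset.mul_sum]
  exact Finset.sum_congr rfl fun j _ => by ring

theorem op_pow (T : ℂ[X]) (a : ℂ) (k : ℕ) : op T (fun k => a ^ k) k = a ^ k * T.eval a := by
  unfold op
  rw [eval_eq_sum_range, Finset.mul_sum]
  exact Finset.sum_congr rfl fun j _ => by simp only [pow_add]; ring

theorem op_multiset (T : ℂ[X]) (A : Multiset ℂ) (k : ℕ) :
    op T (fun k => (A.map fun α => α ^ k).sum) k = (A.map fun α => α ^ k * T.eval α).sum := by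
  induction A using Multiset.induction_on with
  | empty => simp [op]
  | cons a A ih =>
    simp only [Multiset.map_cons, Multiset.sum_cons]
    rw [op_add T (fun k => a ^ k), op_pow, ih]

theorem op_eq_zero (T : ℂ[X]) (hT : T.Monic) (s : ℕ → ℂ) (h : ∀ k, 0 < k → op T s k = 0)
    (h0 : ∀ k, 0 < k → k ≤ T.natDegree → s k = 0) : ∀ k, 0 < k → s k = 0 := by
  intro k
  induction k using Nat.strong_induction_on with
  | _ k ih =>
    intro hk
    by_cases hle : k ≤ T.natDegree
    · exact h0 k hk hle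
    · obtain ⟨j, hj⟩ : ∃ j, k = j + T.natDegree := ⟨k - T.natDegree, by omega⟩
      have hj0 : 0 < j := by omega
      have h1 := h j hj0
      unfold op at h1
      rw [Finset.sum_range_succ, hT.coeff_natDegree, one_mul, ← hj] at h1
      rw [Finset.sum_eq_zero, zero_add] at h1
      · exact h1
      · intro i hi
        rw [Finset.mem_range] at hi
        rw [ih (j + i) (by omega) (by omega), mul_zero]

theorem op_norm_le (T : ℂ[X]) (s : ℕ → ℂ) (C : ℝ) (h : ∀ k, 0 < k → ‖s k‖ ≤ C) (k : ℕ)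
    (hk : 0 < k) : ‖op T s k‖ ≤ (∑ j ∈ Finset.range (T.natDegree + 1), ‖T.coeff j‖) * C := by
  unfold op
  rw [Finset.sum_mul]
  refine (norm_sum_le _ _).trans (Finset.sum_le_sum fun j _ => ?_)
  rw [norm_mul]
  exact mul_le_mul_of_nonneg_left (h (k + j) (by omega)) (norm_nonneg _)

end Pool.Agent.H639R3
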